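import Pool.Agent.Run7.h875.TS.Stm
import Pool.Agent.N704.PP.Loc2
import Pool.Agent.N862.PP.Par
import Pool.Agent.N765.PP.Unim
import Pool.Agent.N833.PP.Int

/-!
# Simultaneous twists: local integrality, uniqueness of primes of degree one, parity

Project TS (helper875), base file of helper298 for the pieces UNI, LOCE, L2, R2, CLSU.
-/

set_option autoImplicit false
set_option linter.all false

open Polynomial IsDedekindDomain WithZero
open scoped Matrix
open Pool.Agent.N874.PP Pool.Agent.TH115.GD Run7.h875.TS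
open scoped Classical

namespace Run7.h298.TS

/-! ### Local integrality -/

section loc

variable {k K : Type} [Field k] [Field K] [Algebra k[X] K] [IsFractionRing k[X] K]

/-- The place of `P`. -/
noncomputable def plc {P : k[X]} (hP : Irreducible P) : HeightOneSpectrum k[X] :=
  ⟨Ideal.span {P}, (Ideal.span_singleton_prime hP.ne_zero).mpr hP.prime, by
    rw [Ne, Ideal.span_singleton_eq_bot]; exact hP.ne_zero⟩

theorem plc_ideal {P : k[X]} (hP : Irreducible P) : (plc hP).asIdeal = Ideal.span {P} := rfl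

theorem sq_int_loc {P : k[X]} (hP : Irreducible P) {D : k[X]} (hD : ¬ P ^ 2 ∣ D) {t : K}
    (h : IsIntegral k[X] (t ^ 2 * algebraMap k[X] K D)) :
    ∃ s : k[X], ¬ P ∣ s ∧ ∃ c : k[X], algebraMap k[X] K c = algebraMap k[X] K s * t := by
  by_cases ht : t = 0
  · exact ⟨1, fun h1 => hP.not_isUnit (isUnit_of_dvd_one h1), 0, by rw [ht]; simp⟩
  have hD0 : D ≠ 0 := fun h0 => hD (h0 ▸ dvd_zero _)
  set v := plc (k := k) hP with hv
  obtain ⟨n, hn⟩ := IsIntegrallyClosed.isIntegral_iff.1 h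
  have h1 : v.valuation K t ^ 2 * v.valuation K (algebraMap k[X] K D) ≤ 1 := by
    rw [← map_pow, ← map_mul, ← hn]
    exact v.valuation_le_one n
  have h2 : exp (-2 : ℤ) < v.valuation K (algebraMap k[X] K D) := by
    rw [HeightOneSpectrum.valuation_of_algebraMap, ← not_le]
    intro h3
    have h4 := (v.intValuation_le_pow_iff_mem D 2).1 (by exact_mod_cast h3)
    rw [hv, plc_ideal, Ideal.span_singleton_pow, Ideal.mem_span_singleton] at h4
    exact hD h4
  have ht0 : v.valuation K t ≠ 0 := (Valuation.ne_zero_iff _).2 ht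
  have hD1 : v.valuation K (algebraMap k[X] K D) ≠ 0 := by
    rw [Valuation.ne_zero_iff, Ne, IsFractionRing.to_map_eq_zero_iff (R := k[X])]
    exact hD0
  have h3 : v.valuation K t ≤ 1 := by
    rw [← exp_log ht0, ← exp_log hD1, ← exp_nsmul, ← exp_add, ← exp_zero, exp_le_exp] at h1
    rw [← exp_log hD1, exp_lt_exp] at h2
    rw [← exp_log ht0, ← exp_zero, exp_le_exp]
    simp only [nsmul_eq_mul, Nat.cast_ofNat] at h1
    omega
  obtain ⟨m, ⟨d, hd⟩, hmd⟩ := v.exists_primeCompl_mul_eq_of_integer t h3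
  refine ⟨d, fun h4 => hd ?_, m, ?_⟩
  · show d ∈ v.asIdeal
    rw [hv, plc_ideal, Ideal.mem_span_singleton]
    exact h4
  · rw [← hmd, mul_comm]

end loc

section cub

variable {k K L : Type} [Field k] [Field K] [Algebra k[X] K] [Field L] [Algebra K L]
  [Algebra k[X] L] [IsScalarTower k[X] K L] {a b : k[X]} {θ : L}

theorem tht_int (h : IsCub K a b θ) : IsIntegral k[X] θ := by
  refine ⟨X ^ 3 + C a * X + C b, ?_, ?_⟩
  · monicity!
  · simp [h.root]

theorem disc_t (h : IsCub K a b θ) {r s t : K}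
    (hx : IsIntegral k[X] (algebraMap K L r + algebraMap K L s * θ + algebraMap K L t * θ ^ 2)) :
    IsIntegral k[X] (t ^ 2 * algebraMap k[X] K (dsc a b)) := by
  have hfin : Module.Finite K L := Module.Finite.of_basis h.basis
  have hθ := tht_int h
  have h1 : IsIntegral k[X] (Algebra.discr K (vec θ ᵥ*
      (!![1, 0, r; 0, 1, s; 0, 0, t] : Matrix (Fin 3) (Fin 3) K).map (algebraMap K L))) := by
    apply Algebra.discr_isIntegral
    intro i
    fin_cases i
    · have : (vec θ ᵥ* (!![1, 0, r; 0, 1, s; 0, 0, t] : Matrix (Fin 3) (Fin 3) K).map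
          (algebraMap K L)) 0 = 1 := by
        simp [Matrix.vecMul, dotProduct, Fin.sum_univ_three, vec]
      simp only [Fin.zero_eta]
      rw [this]
      exact isIntegral_one
    · have : (vec θ ᵥ* (!![1, 0, r; 0, 1, s; 0, 0, t] : Matrix (Fin 3) (Fin 3) K).map
          (algebraMap K L)) 1 = θ := by
        simp [Matrix.vecMul, dotProduct, Fin.sum_univ_three, vec]
      simp only [Fin.mk_one]
      rw [this]
      exact hθ
    · have : (vec θ ᵥ* (!![1, 0, r; 0, 1, s; 0, 0, t] : Matrix (Fin 3) (Fin 3) K).map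
          (algebraMap K L)) 2 =
          algebraMap K L r + algebraMap K L s * θ + algebraMap K L t * θ ^ 2 := by
        simp [Matrix.vecMul, dotProduct, Fin.sum_univ_three, vec]
        ring
      simp only [Fin.reduceFinMk]
      rw [this]
      exact hx
  rw [Algebra.discr_of_matrix_vecMul, Pool.Agent.N833.PP.discr_vec h, Matrix.det_fin_three] at h1
  simp at h1
  exact h1

theorem disc_s (h : IsCub K a b θ) {r s : K}
    (hx : IsIntegral k[X] (algebraMap K L r + algebraMap K L s * θ)) :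
    IsIntegral k[X] (s ^ 2 * algebraMap k[X] K (dsc a b)) := by
  have hfin : Module.Finite K L := Module.Finite.of_basis h.basis
  have hθ := tht_int h
  have h1 : IsIntegral k[X] (Algebra.discr K (vec θ ᵥ*
      (!![1, r, 0; 0, s, 0; 0, 0, 1] : Matrix (Fin 3) (Fin 3) K).map (algebraMap K L))) := by
    apply Algebra.discr_isIntegral
    intro i
    fin_cases i
    · have : (vec θ ᵥ* (!![1, r, 0; 0, s, 0; 0, 0, 1] : Matrix (Fin 3) (Fin 3) K).map
          (algebraMap K L)) 0 = 1 := by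
        simp [Matrix.vecMul, dotProduct, Fin.sum_univ_three, vec]
      simp only [Fin.zero_eta]
      rw [this]
      exact isIntegral_one
    · have : (vec θ ᵥ* (!![1, r, 0; 0, s, 0; 0, 0, 1] : Matrix (Fin 3) (Fin 3) K).map
          (algebraMap K L)) 1 = algebraMap K L r + algebraMap K L s * θ := by
        simp [Matrix.vecMul, dotProduct, Fin.sum_univ_three, vec]
        ring
      simp only [Fin.mk_one]
      rw [this]
      exact hx
    · have : (vec θ ᵥ* (!![1, r, 0; 0, s, 0; 0, 0, 1] : Matrix (Fin 3) (Fin 3) K).map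
          (algebraMap K L)) 2 = θ ^ 2 := by
        simp [Matrix.vecMul, dotProduct, Fin.sum_univ_three, vec]
      simp only [Fin.reduceFinMk]
      rw [this]
      exact hθ.pow 2
  rw [Algebra.discr_of_matrix_vecMul, Pool.Agent.N833.PP.discr_vec h, Matrix.det_fin_three] at h1
  simp at h1
  exact h1

variable [IsFractionRing k[X] K]

/-- Integral elements have coordinates which are integral at the `P` with `P ^ 2 ∤ dsc`. -/
theorem lint (h : IsCub K a b θ) {P : k[X]} (hP : Irreducible P) (hsq : ¬ P ^ 2 ∣ dsc a b)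
    {x : L} (hx : IsIntegral k[X] x) :
    ∃ s : k[X], ¬ P ∣ s ∧ ∃ v : Fin 3 → k[X], Crd θ v (algebraMap k[X] L s * x) := by
  have hθ := tht_int h
  have hint : ∀ r : k[X], IsIntegral k[X] (algebraMap k[X] L r) := fun r => isIntegral_algebraMap
  obtain ⟨r, s, t, rfl⟩ := h.gen x
  obtain ⟨s₁, hs₁, c₁, hc₁⟩ := sq_int_loc hP hsq (disc_t h hx)
  have hx1 : IsIntegral k[X] (algebraMap K L (algebraMap k[X] K s₁ * r) +
      algebraMap K L (algebraMap k[X] K s₁ * s) * θ) := by
    have h1 := ((hint s₁).mul hx).sub ((hint c₁).mul (hθ.pow 2))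
    have e : algebraMap k[X] L s₁ * (algebraMap K L r + algebraMap K L s * θ +
        algebraMap K L t * θ ^ 2) - algebraMap k[X] L c₁ * θ ^ 2 =
        algebraMap K L (algebraMap k[X] K s₁ * r) +
          algebraMap K L (algebraMap k[X] K s₁ * s) * θ := by
      rw [IsScalarTower.algebraMap_apply k[X] K L c₁, hc₁,
        IsScalarTower.algebraMap_apply k[X] K L s₁]
      simp only [map_mul]
      ring
    rwa [e] at h1
  obtain ⟨s₂, hs₂, c₂, hc₂⟩ := sq_int_loc hP hsq (disc_s h hx1)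
  have hx2 : IsIntegral k[X] (algebraMap K L (algebraMap k[X] K s₂ * (algebraMap k[X] K s₁ * r))) := by
    have h1 := ((hint s₂).mul hx1).sub ((hint c₂).mul hθ)
    have e : algebraMap k[X] L s₂ * (algebraMap K L (algebraMap k[X] K s₁ * r) +
        algebraMap K L (algebraMap k[X] K s₁ * s) * θ) - algebraMap k[X] L c₂ * θ =
        algebraMap K L (algebraMap k[X] K s₂ * (algebraMap k[X] K s₁ * r)) := by
      rw [IsScalarTower.algebraMap_apply k[X] K L c₂, hc₂,
        IsScalarTower.algebraMap_apply k[X] K L s₂]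
      simp only [map_mul]
      ring
    rwa [e] at h1
  rw [isIntegral_algebraMap_iff (algebraMap K L).injective] at hx2
  obtain ⟨c₃, hc₃⟩ := IsIntegrallyClosed.isIntegral_iff.1 hx2
  refine ⟨s₂ * s₁, fun hd => ?_, ![c₃, c₂, s₂ * c₁], ?_⟩
  · rcases hP.prime.dvd_or_dvd hd with h1 | h1
    · exact hs₂ h1
    · exact hs₁ h1
  · unfold Crd
    simp only [Matrix.cons_val, Matrix.cons_val_zero, Matrix.cons_val_one]
    rw [IsScalarTower.algebraMap_apply k[X] K L c₃, hc₃, IsScalarTower.algebraMap_apply k[X] K L c₂,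
      hc₂, map_mul (algebraMap k[X] L), map_mul (algebraMap k[X] L),
      IsScalarTower.algebraMap_apply k[X] K L c₁, hc₁, IsScalarTower.algebraMap_apply k[X] K L s₁,
      IsScalarTower.algebraMap_apply k[X] K L s₂]
    simp only [map_mul]
    ring

theorem sep (h6 : (6 : k) ≠ 0) (h : IsCub K a b θ) (hd : dsc a b ≠ 0) :
    Algebra.IsSeparable K L := by
  have hfin : Module.Finite K L := Module.Finite.of_basis h.basis
  set A := algebraMap k[X] K a with hA
  set B := algebraMap k[X] K b with hB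
  have hD : algebraMap k[X] K (dsc a b) ≠ 0 := by
    rwa [Ne, IsFractionRing.to_map_eq_zero_iff (R := k[X])]
  have hD' : algebraMap k[X] K (dsc a b) = 4 * A ^ 3 + 27 * B ^ 2 := by
    unfold dsc; simp [hA, hB, map_ofNat]
  have hsep : (X ^ 3 + C A * X + C B : K[X]).Separable := by
    rw [Polynomial.separable_def']
    refine ⟨C (4 * A ^ 3 + 27 * B ^ 2)⁻¹ * (27 * (X ^ 3 + C A * X + C B) + 108 * X ^ 3 -
      54 * X * (3 * X ^ 2 + C A)), C (4 * A ^ 3 + 27 * B ^ 2)⁻¹ *
      ((4 * (3 * X ^ 2 + C A) - 9 * X ^ 2) * (3 * X ^ 2 + C A)), ?_⟩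
    have e : derivative (X ^ 3 + C A * X + C B : K[X]) = 3 * X ^ 2 + C A := by
      rw [derivative_add, derivative_add, derivative_X_pow, derivative_C_mul, derivative_X,
        derivative_C, Nat.cast_ofNat, map_ofNat]
      ring
    rw [e]
    have e2 : C (4 * A ^ 3 + 27 * B ^ 2)⁻¹ * (4 * C A ^ 3 + 27 * C B ^ 2 : K[X]) = 1 := by
      have : (4 * C A ^ 3 + 27 * C B ^ 2 : K[X]) = C (4 * A ^ 3 + 27 * B ^ 2) := by
        simp [map_ofNat]
      rw [this, ← C_mul, inv_mul_cancel₀ (hD' ▸ hD), C_1]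
    rw [← e2]
    ring
  have hθ : IsSeparable K θ := by
    refine hsep.of_dvd (minpoly.dvd K θ ?_)
    simp only [map_add, map_mul, map_pow, aeval_X, aeval_C]
    rw [hA, hB, ← IsScalarTower.algebraMap_apply k[X] K L, ← IsScalarTower.algebraMap_apply k[X] K L]
    exact h.root
  refine ⟨fun x => ?_⟩
  obtain ⟨r, s, t, rfl⟩ := h.gen x
  have hc : ∀ r : K, IsSeparable K (algebraMap K L r) := fun r => isSeparable_algebraMap (F := K) r
  rw [pow_two]
  exact Field.isSeparable_add (Field.isSeparable_add (hc r) (Field.isSeparable_mul (hc s) hθ))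
    (Field.isSeparable_mul (hc t) (Field.isSeparable_mul hθ hθ))

end cub

/-! ### Primes over `P` -/

section ovr

variable {k K L O : Type} [Field k] [Field K] [Algebra k[X] K] [IsFractionRing k[X] K]
  [Field L] [Algebra K L] [Algebra k[X] L] [IsScalarTower k[X] K L] [CommRing O]
  [IsDedekindDomain O] [Algebra O L] [IsFractionRing O L] [Algebra k[X] O]
  [IsScalarTower k[X] O L] [IsIntegralClosure O k[X] L] {a b : k[X]} {θ : L}

theorem dsc_ne {P : k[X]} (hsq : ¬ P ^ 2 ∣ dsc a b) : dsc a b ≠ 0 := fun h0 =>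
  hsq (h0 ▸ dvd_zero _)

theorem finO (h6 : (6 : k) ≠ 0) (h : IsCub K a b θ) (hd : dsc a b ≠ 0) :
    Module.Finite k[X] O := by
  have hfin : Module.Finite K L := Module.Finite.of_basis h.basis
  have hsep := sep h6 h hd
  exact IsIntegralClosure.finite k[X] K L O

/-- There is only one prime over `P` with `θ ≡ c`. -/
theorem uniqL (h : IsCub K a b θ) {P : k[X]} (hP : Irreducible P) (hsq : ¬ P ^ 2 ∣ dsc a b)
    {𝔓 𝔓' : HeightOneSpectrum O} (h𝔓 : Ov P 𝔓) (h𝔓' : Ov P 𝔓')
    {c : k[X]} (hc : 𝔓.valuation L (θ - algebraMap k[X] L c) < 1)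
    (hc' : 𝔓'.valuation L (θ - algebraMap k[X] L c) < 1) : 𝔓 = 𝔓' := by
  have hle : 𝔓.asIdeal ≤ 𝔓'.asIdeal := by
    intro z₀ hz₀
    obtain ⟨s, hs, u, hu⟩ := lint h hP hsq
      (x := algebraMap O L z₀) ((IsIntegralClosure.isIntegral_iff (A := O)).2 ⟨z₀, rfl⟩)
    set z : O := algebraMap k[X] O s * z₀ with hzd
    have hz : z ∈ 𝔓.asIdeal := Ideal.mul_mem_left _ _ hz₀
    have hsz : algebraMap k[X] L s * algebraMap O L z₀ = algebraMap O L z := by
      rw [hzd, map_mul, ← IsScalarTower.algebraMap_apply k[X] O L]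
    rw [hsz] at hu
    suffices h5 : z ∈ 𝔓'.asIdeal by
      rcases 𝔓'.isPrime.mem_or_mem h5 with h6 | h6
      · exact absurd ((Pool.Agent.N704.PP.mem_iff hP h𝔓' s).1 h6) hs
      · exact h6
    have hu' : algebraMap O L z = algebraMap k[X] L (u 0) + algebraMap k[X] L (u 1) * θ +
      algebraMap k[X] L (u 2) * θ ^ 2 := hu
    set n : k[X] := u 0 + u 1 * c + u 2 * c ^ 2 with hn
    have e : algebraMap O L z = algebraMap k[X] L n + (θ - algebraMap k[X] L c) *
        (algebraMap k[X] L (u 1) + algebraMap k[X] L (u 2) *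
          ((θ - algebraMap k[X] L c) + 2 * algebraMap k[X] L c)) := by
      rw [hu', hn, map_add, map_add, map_mul, map_mul, map_pow]; ring
    have small : ∀ 𝔮 : HeightOneSpectrum O, 𝔮.valuation L (θ - algebraMap k[X] L c) < 1 →
        𝔮.valuation L ((θ - algebraMap k[X] L c) *
        (algebraMap k[X] L (u 1) + algebraMap k[X] L (u 2) *
          ((θ - algebraMap k[X] L c) + 2 * algebraMap k[X] L c))) < 1 := by
      intro 𝔮 hq
      have h1 : 𝔮.valuation L ((algebraMap k[X] L (u 1) + algebraMap k[X] L (u 2) *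
          ((θ - algebraMap k[X] L c) + 2 * algebraMap k[X] L c))) ≤ 1 := by
        refine (Valuation.map_add _ _ _).trans (max_le (Pool.Agent.N704.PP.valO_le_one 𝔮 _) ?_)
        rw [map_mul]
        refine mul_le_one' (Pool.Agent.N704.PP.valO_le_one 𝔮 _) ?_
        refine (Valuation.map_add _ _ _).trans (max_le hq.le ?_)
        have : (2 : L) * algebraMap k[X] L c = algebraMap k[X] L (2 * c) := by
          rw [map_mul, map_ofNat]
        rw [this]
        exact Pool.Agent.N704.PP.valO_le_one 𝔮 _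
      rw [map_mul]
      exact mul_lt_one_of_lt_of_le hq h1
    have h1 : 𝔓.valuation L (algebraMap O L z) < 1 :=
      (HeightOneSpectrum.valuation_lt_one_iff_mem 𝔓 z).2 hz
    have h2 : P ∣ n := by
      rw [← Pool.Agent.N704.PP.valO_lt_one (L := L) hP h𝔓]
      have e2 : algebraMap k[X] L n = algebraMap O L z - (θ - algebraMap k[X] L c) *
        (algebraMap k[X] L (u 1) + algebraMap k[X] L (u 2) *
          ((θ - algebraMap k[X] L c) + 2 * algebraMap k[X] L c)) := by rw [e]; ring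
      rw [e2]
      exact lt_of_le_of_lt (Valuation.map_sub _ _ _) (max_lt h1 (small 𝔓 hc))
    have h3 : 𝔓'.valuation L (algebraMap O L z) < 1 := by
      rw [e]
      exact lt_of_le_of_lt (Valuation.map_add _ _ _)
        (max_lt ((Pool.Agent.N704.PP.valO_lt_one (L := L) hP h𝔓' n).2 h2) (small 𝔓' hc'))
    exact (HeightOneSpectrum.valuation_lt_one_iff_mem 𝔓' z).1 h3
  exact HeightOneSpectrum.ext (𝔓.isMaximal.eq_of_le 𝔓'.isPrime.ne_top hle)

theorem sqf_rootL {P : k[X]} (hP : Irreducible P) (hsq : ¬ P ^ 2 ∣ dsc a b) (c : k[X]) :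
    ∃ c', P ∣ c' - c ∧ ¬ P ^ 2 ∣ c' ^ 3 + a * c' + b := by
  by_contra hno
  push Not at hno
  obtain ⟨e, he⟩ := hno c (by simp)
  obtain ⟨e', he'⟩ := hno (c + P) (by simp)
  have h1 : P * (3 * c ^ 2 + a) = P * (P * (e' - e - 3 * c - P)) := by
    linear_combination he' - he
  have h2 := mul_left_cancel₀ hP.ne_zero h1
  have h3 : P * P ∣ dsc a b := by
    refine ⟨(e' - e - 3 * c - P) ^ 2 * (4 * (3 * c ^ 2 + a) - 9 * c ^ 2) +
      e * (27 * (c ^ 3 + a * c + b) + 108 * c ^ 3 - 54 * c * (3 * c ^ 2 + a)), ?_⟩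
    unfold dsc
    linear_combination (27 * (c ^ 3 + a * c + b) + 108 * c ^ 3 - 54 * c * (3 * c ^ 2 + a)) * he +
      (4 * (3 * c ^ 2 + a) - 9 * c ^ 2) * ((3 * c ^ 2 + a) + P * (e' - e - 3 * c - P)) * h2
  exact hsq (by rw [pow_two]; exact h3)

/-- primes of degree one -/
theorem cn_deg_oneL [Module.Finite k[X] O] [Module.IsTorsionFree k[X] O] (h : IsCub K a b θ)
    {P : k[X]} (hP : Irreducible P) (hsq : ¬ P ^ 2 ∣ dsc a b) {𝔓 : HeightOneSpectrum O}
    (hov : Ov P 𝔓) {t : O} (ht : algebraMap O L t = θ) {c : k[X]}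
    (hc : t - algebraMap k[X] O c ∈ 𝔓.asIdeal) :
    Pool.Agent.N862.PP.cn k[X] (Ideal.span {P}) 𝔓.asIdeal = 1 := by
  have hpp : (Ideal.span {P} : Ideal k[X]).IsPrime :=
    (Ideal.span_singleton_prime hP.ne_zero).mpr hP.prime
  have hpb : (Ideal.span {P} : Ideal k[X]) ≠ ⊥ := by
    rw [Ne, Ideal.span_singleton_eq_bot]
    exact hP.ne_zero
  obtain ⟨c', ⟨d, hd⟩, hc'⟩ := sqf_rootL hP hsq c
  refine Pool.Agent.N862.PP.cn_one hpp hpb 𝔓.isPrime ?_ (z := t - algebraMap k[X] O c') ?_ ?_
  · ext x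
    rw [Ideal.mem_comap, Pool.Agent.N862.PP.ov_iff hP hov, Ideal.mem_span_singleton]
  · have : t - algebraMap k[X] O c' = (t - algebraMap k[X] O c) -
        algebraMap k[X] O d * algebraMap k[X] O P := by
      have hd' : c' = c + P * d := by linear_combination hd
      rw [hd', map_add, map_mul]
      ring
    rw [this]
    exact 𝔓.asIdeal.sub_mem hc (𝔓.asIdeal.mul_mem_left _ hov)
  · have hcr : Crd θ ![-c', 1, 0] (algebraMap O L (t - algebraMap k[X] O c')) := by
      unfold Crd
      simp only [Matrix.cons_val_zero, Matrix.cons_val_one, Matrix.cons_val, map_sub, ht,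
        map_neg, map_one, map_zero, ← IsScalarTower.algebraMap_apply k[X] O L]
      ring
    rw [Pool.Agent.N862.PP.intNorm_crd h hcr, Pool.Agent.N862.PP.dn_lin, Ideal.neg_mem_iff,
      Ideal.span_singleton_pow, Ideal.mem_span_singleton]
    exact hc'

/-- The parity at a prime of degree one from the norm. -/
theorem parL (h6 : (6 : k) ≠ 0) (h : IsCub K a b θ) {P : k[X]} (hP : Irreducible P)
    (hsq : ¬ P ^ 2 ∣ dsc a b) {𝔓₀ : HeightOneSpectrum O} {c : k[X]} (hov : Ov P 𝔓₀)
    (hθ : 𝔓₀.valuation L (θ - algebraMap k[X] L c) < 1) {x : L} (hx : x ≠ 0)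
    (hnx : IsSquare (Algebra.norm K x))
    (hoth : ∀ 𝔓 : HeightOneSpectrum O, Ov P 𝔓 → 𝔓 ≠ 𝔓₀ → Ev 𝔓 x) : Ev 𝔓₀ x := by
  obtain ⟨t, ht, htr⟩ := Pool.Agent.N862.PP.exists_theta (K := K) (O := O) h
  have hfin : Module.Finite k[X] O := finO (K := K) (L := L) h6 h (dsc_ne hsq)
  have htf : Module.IsTorsionFree k[X] O := Pool.Agent.N862.PP.tf_O (K := K) (L := L)
  have hc : t - algebraMap k[X] O c ∈ 𝔓₀.asIdeal := by
    rw [← 𝔓₀.valuation_lt_one_iff_mem (K := L)]
    change 𝔓₀.valuation L (algebraMap O L (t - algebraMap k[X] O c)) < 1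
    rw [map_sub, ht, ← IsScalarTower.algebraMap_apply k[X] O L]
    exact hθ
  have h1 := cn_deg_oneL h hP hsq hov ht hc
  exact Pool.Agent.N862.PP.parity h hP 𝔓₀ hov (by rw [h1]; exact odd_one) hx hnx
    fun 𝔓 ho hne => Or.inl (hoth 𝔓 ho hne)

/-! ### The two cases of the local condition -/

theorem aeval_pol (h : IsCub K a b θ) (α : L) : aeval θ (pol h α) = α := by
  have h1 : α = ∑ i, h.co i α • h.basis i := by
    have := h.basis.sum_repr α
    exact this.symm
  conv_rhs => rw [h1]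
  rw [Fin.sum_univ_three, pol]
  simp only [map_add, map_mul, map_pow, aeval_X, aeval_C, h.basis_apply, vec, Algebra.smul_def,
    Matrix.cons_val_zero, Matrix.cons_val_one, Matrix.cons_val, mul_one]

theorem loc_casesL (h : IsCub K a b θ) {v : HeightOneSpectrum k[X]}
    {δ : v.adicCompletion K} {α : L} (hl : LocAt h (v.adicCompletion K) δ α) :
    (∀ (𝔓 : HeightOneSpectrum O) (j : v.adicCompletion K →+* 𝔓.adicCompletion L)
      (_ : ∀ x : K, j (algebraMap K (v.adicCompletion K) x) =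
      algebraMap L (𝔓.adicCompletion L) (algebraMap K L x)), ∃ g : 𝔓.adicCompletion L,
      algebraMap L (𝔓.adicCompletion L) α = g ^ 2) ∨
    ∃ z w : v.adicCompletion K, w ≠ 0 ∧
    w ^ 2 = δ * (z ^ 3 + algebraMap K (v.adicCompletion K) (algebraMap k[X] K a) * z +
      algebraMap K (v.adicCompletion K) (algebraMap k[X] K b)) ∧
    (∀ (𝔓 : HeightOneSpectrum O) (j : v.adicCompletion K →+* 𝔓.adicCompletion L)
      (_ : ∀ x : K, j (algebraMap K (v.adicCompletion K) x) =
      algebraMap L (𝔓.adicCompletion L) (algebraMap K L x)), ∃ g : 𝔓.adicCompletion L,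
      j δ * (j z - algebraMap L (𝔓.adicCompletion L) θ) *
        algebraMap L (𝔓.adicCompletion L) α = g ^ 2) := by
  have key : ∀ (𝔓 : HeightOneSpectrum O) (j : v.adicCompletion K →+* 𝔓.adicCompletion L)
      (_ : ∀ x : K, j (algebraMap K (v.adicCompletion K) x) =
      algebraMap L (𝔓.adicCompletion L) (algebraMap K L x)),
      ((pol h α).map (algebraMap K (v.adicCompletion K))).eval₂ j
        (algebraMap L (𝔓.adicCompletion L) θ) = algebraMap L (𝔓.adicCompletion L) α := by
    intro 𝔓 j hj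
    rw [Pool.Agent.N704.PP.eval_h j hj, aeval_pol]
  rcases hl with ⟨g, hg⟩ | ⟨z, w, hw, hzw, g, hg⟩
  · left
    intro 𝔓 j hj
    refine ⟨g.eval₂ j (algebraMap L (𝔓.adicCompletion L) θ), ?_⟩
    have := Pool.Agent.N704.PP.eval_dvd j hj h.root hg
    rw [eval₂_sub, eval₂_pow, key 𝔓 j hj, sub_eq_zero] at this
    exact this
  · right
    refine ⟨z, w, hw, hzw, ?_⟩
    intro 𝔓 j hj
    refine ⟨g.eval₂ j (algebraMap L (𝔓.adicCompletion L) θ), ?_⟩
    have := Pool.Agent.N704.PP.eval_dvd j hj h.root hg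
    rw [eval₂_sub, eval₂_pow, eval₂_mul, eval₂_mul, eval₂_sub, eval₂_C, eval₂_C, eval₂_X,
      key 𝔓 j hj, sub_eq_zero] at this
    exact this

end ovr

end Run7.h298.TS
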