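import Pool.Agent.Run7.h298.TS.Base

/-! # CLSU (project TS of helper875) -/

set_option autoImplicit false
set_option linter.all false

open Polynomial IsDedekindDomain WithZero
open Pool.Agent.N874.PP Pool.Agent.TH115.GD Run7.h875.TS
open scoped Classical

namespace Run7.h298.TS

theorem LocT.sq {F : Type} [Field F] {a b δ s : F} (hs : s ≠ 0) {h : F[X]} (hl : LocT a b δ h) :
    LocT a b (δ * s ^ 2) h := by
  rcases hl with hl | ⟨z, w, hw, hzw, g, hg⟩
  · exact Or.inl hl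
  · refine Or.inr ⟨z, s * w, mul_ne_zero hs hw, ?_, C s * g, ?_⟩
    · rw [mul_pow, hzw]; ring
    · have e : C (δ * s ^ 2) * (C z - X) * h - (C s * g) ^ 2 =
          (C δ * (C z - X) * h - g ^ 2) * C s ^ 2 := by
        rw [C_mul, C_pow]; ring
      rw [e]
      exact Dvd.dvd.mul_right hg _

theorem clsu : S_CLSU := by
  intro k K L O _ _ _ _ _ _ _ _ _ _ _ _ _ _ _ _ a b θ h6 h S u u' hu hu' huu α hα
  refine ⟨hα.ne, hα.nsq, hα.ev, hα.bad, ?_, hα.inf⟩
  intro P hPS v hv
  have h2 : (2 : k) ≠ 0 := by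
    intro h
    apply h6
    have e : (6 : k) = 2 * 3 := by norm_num
    rw [e, h, zero_mul]
  have hP := hu.irr P hPS
  obtain ⟨z, hz⟩ := huu P hPS
  have hv2 : Valued.v (2 : v.adicCompletion K) = 1 := Pool.Agent.N765.PP.v_two hP hv h2
  set φ : k[X] → v.adicCompletion K := fun f =>
    algebraMap K (v.adicCompletion K) (algebraMap k[X] K f) with hφ
  have φ1 : ∀ f, ¬ P ∣ f → Valued.v (φ f) = 1 := fun f hf => Pool.Agent.N765.PP.v_poly_eq hv hf
  have φ2 : ∀ f, P ∣ f → Valued.v (φ f) < 1 := fun f hf => (Pool.Agent.N765.PP.v_poly_lt hv f).2 hf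
  have φm : ∀ f g, φ (f * g) = φ f * φ g := fun f g => by simp only [hφ, map_mul]
  have φs : ∀ f g, φ (f - g) = φ f - φ g := fun f g => by simp only [hφ, map_sub]
  have φ0 : ∀ f, ¬ P ∣ f → φ f ≠ 0 := fun f hf h0 => by
    have := φ1 f hf
    rw [h0, map_zero] at this
    exact zero_ne_one this
  have hzn : ¬ P ∣ z := by
    intro hd
    apply hu'.nu P hPS
    have h3 : P ∣ z ^ 2 * u P := by
      rw [pow_two, mul_assoc]
      exact Dvd.dvd.mul_right hd _
    have := dvd_sub h3 hz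
    rwa [sub_sub_cancel] at this
  have huP := hu.nu P hPS
  have huP' := hu'.nu P hPS
  have hzu : ¬ P ∣ z ^ 2 * u P := by
    intro hd
    rcases hP.prime.dvd_or_dvd hd with h3 | h3
    · exact hzn (hP.prime.dvd_of_dvd_pow h3)
    · exact huP h3
  obtain ⟨s, hs, hs1⟩ := Pool.Agent.TH115.GD.sqrt_one_unit hv2 (φ (u' P) / φ (z ^ 2 * u P)) (by
    have e : φ (u' P) / φ (z ^ 2 * u P) - 1 = - (φ (z ^ 2 * u P - u' P) / φ (z ^ 2 * u P)) := by
      rw [φs]
      have := φ0 _ hzu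
      field_simp
      ring
    rw [e, Valuation.map_neg, map_div₀, φ1 _ hzu, div_one]
    exact φ2 _ hz)
  have hs0 : s ≠ 0 := by
    rintro rfl
    rw [zero_sub, Valuation.map_neg, map_one] at hs1
    exact lt_irrefl _ hs1
  have e : φ (P * u' P) = φ (P * u P) * (φ z * s) ^ 2 := by
    rw [mul_pow, hs, φm, φm, φm, pow_two z, φm]
    have h3 := φ0 _ hzn
    have h4 := φ0 _ huP
    field_simp
  change LocAt h (v.adicCompletion K) (φ (P * u' P)) α
  rw [e]
  exact LocT.sq (mul_ne_zero (φ0 _ hzn) hs0) (hα.tw P hPS v hv)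

end Run7.h298.TS
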