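import Pool.Agent.Run7.h298.TS.Base

/-! # L2 (project TS of helper875) -/

set_option autoImplicit false
set_option linter.all false

open Polynomial IsDedekindDomain WithZero
open Pool.Agent.N874.PP Pool.Agent.TH115.GD Run7.h875.TS
open Pool.Agent.N704.PP (vx sq1_of ev_of near_one resid cmap mlt mlt' exp_odd val_le_one val_lt_one
  val_eq_one valO_le_one valO_lt_one valO_eq_one j_unit j_big val_int)
open scoped Classical

namespace Run7.h298.TS

section pt

variable {k K L O : Type} [Field k] [Field K] [Algebra k[X] K] [IsFractionRing k[X] K]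
  [Field L] [Algebra K L] [Algebra k[X] L] [IsScalarTower k[X] K L] [CommRing O]
  [IsDedekindDomain O] [Algebra O L] [IsFractionRing O L] [Algebra k[X] O]
  [IsScalarTower k[X] O L] {a b : k[X]} {θ : L}

theorem alg_ne {𝔓 : HeightOneSpectrum O} {x : L} (hx : x ≠ 0) :
    algebraMap L (𝔓.adicCompletion L) x ≠ 0 := by
  rw [Ne, map_eq_zero]; exact hx

/-- A point with `z` not integral: the class is trivial. -/
theorem far {P : k[X]} (hP : Irreducible P) {v : HeightOneSpectrum k[X]}
    (hv : v.asIdeal = Ideal.span {P}) {𝔓 : HeightOneSpectrum O} (h𝔓 : Ov P 𝔓)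
    (hθ : 𝔓.valuation L θ ≤ 1)
    {j : v.adicCompletion K →+* 𝔓.adicCompletion L}
    (hj1 : ∀ x : K, j (algebraMap K (v.adicCompletion K) x) =
      algebraMap L (𝔓.adicCompletion L) (algebraMap K L x))
    (hj2 : ∀ y, Valued.v y ≤ 1 → Valued.v (j y) ≤ 1)
    (hj3 : ∀ y, Valued.v y < 1 → Valued.v (j y) < 1)
    {δ z w : v.adicCompletion K} (hδ : δ ≠ 0)
    (hzw : w ^ 2 = δ * (z ^ 3 + algebraMap K (v.adicCompletion K) (algebraMap k[X] K a) * z +
      algebraMap K (v.adicCompletion K) (algebraMap k[X] K b))) (hz : 1 < Valued.v z)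
    {α : L} (hα : α ≠ 0) {g : 𝔓.adicCompletion L}
    (hg : j δ * (j z - algebraMap L (𝔓.adicCompletion L) θ) *
      algebraMap L (𝔓.adicCompletion L) α = g ^ 2) : Sq1 𝔓 α := by
  have hz0 : z ≠ 0 := by
    rintro rfl
    rw [map_zero] at hz
    exact absurd hz (by simp)
  set A := algebraMap K (v.adicCompletion K) (algebraMap k[X] K a) with hA
  set B := algebraMap K (v.adicCompletion K) (algebraMap k[X] K b) with hB
  have vA : Valued.v A ≤ 1 := by rw [hA, vx]; exact val_le_one a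
  have vB : Valued.v B ≤ 1 := by rw [hB, vx]; exact val_le_one b
  have vzi : Valued.v z⁻¹ < 1 := by
    rw [map_inv₀]
    exact inv_lt_one_of_one_lt₀ hz
  set ε := A * z⁻¹ ^ 2 + B * z⁻¹ ^ 3 with hε
  have vε : Valued.v ε < 1 := by
    refine lt_of_le_of_lt (Valuation.map_add _ _ _) (max_lt ?_ ?_)
    · rw [map_mul, map_pow]
      exact mlt vA (pow_lt_one₀ zero_le vzi two_ne_zero)
    · rw [map_mul, map_pow]
      exact mlt vB (pow_lt_one₀ zero_le vzi three_ne_zero)
  have hw : w ^ 2 = δ * z ^ 3 * (1 + ε) := by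
    rw [hzw, hε]
    field_simp
    ring
  have v1 : Valued.v (1 + ε) = 1 := by
    rw [Valuation.map_add_eq_of_lt_left _ (by rw [map_one]; exact vε), map_one]
  have h1ε : (1 + ε) ≠ 0 := by
    intro h
    rw [h, map_zero] at v1
    exact zero_ne_one v1
  have hw0 : w ≠ 0 := by
    rintro rfl
    rw [zero_pow two_ne_zero] at hw
    exact mul_ne_zero (mul_ne_zero hδ (pow_ne_zero 3 hz0)) h1ε hw.symm
  have hjz0 : j z ≠ 0 := by rw [Ne, map_eq_zero]; exact hz0
  have hjw0 : j w ≠ 0 := by rw [Ne, map_eq_zero]; exact hw0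
  have hjδ0 : j δ ≠ 0 := by rw [Ne, map_eq_zero]; exact hδ
  have hjw : j w ^ 2 = j δ * j z ^ 3 * (1 + j ε) := by
    rw [← map_pow, hw, map_mul, map_mul, map_pow, map_add, map_one]
  have vjε : Valued.v (j ε) < 1 := hj3 _ vε
  have vj1 : Valued.v (1 + j ε) = 1 := by
    rw [Valuation.map_add_eq_of_lt_left _ (by rw [map_one]; exact vjε), map_one]
  have hj1ε : (1 + j ε) ≠ 0 := by
    intro h
    rw [h, map_zero] at vj1
    exact zero_ne_one vj1
  set t := algebraMap L (𝔓.adicCompletion L) θ with ht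
  have vt : Valued.v t ≤ 1 := by rw [ht, vx]; exact hθ
  set ε' := - (t * j z⁻¹) with hε'
  have vε' : Valued.v ε' < 1 := by
    rw [hε', Valuation.map_neg, map_mul]
    exact mlt vt (hj3 _ vzi)
  have hg' : j δ * j z * (1 + ε') * algebraMap L (𝔓.adicCompletion L) α = g ^ 2 := by
    rw [← hg, hε', map_inv₀]
    field_simp
    ring
  have hαE := alg_ne (𝔓 := 𝔓) hα
  refine sq1_of 𝔓 α (g * j z / j w) ?_
  have e : algebraMap L (𝔓.adicCompletion L) α - (g * j z / j w) ^ 2 =
      algebraMap L (𝔓.adicCompletion L) α * ((j ε - ε') / (1 + j ε)) := by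
    rw [div_pow, mul_pow, ← hg', hjw]
    field_simp
    ring
  rw [e, map_mul, map_div₀, vj1, div_one]
  calc _ < Valued.v (algebraMap L (𝔓.adicCompletion L) α) * 1 :=
        mul_lt_mul_of_pos_left (lt_of_le_of_lt (Valuation.map_sub _ _ _)
          (max_lt vjε vε')) (zero_lt_iff.2 ((Valuation.ne_zero_iff _).2 hαE))
    _ = _ := mul_one _

/-- A point with `z ≡ c`: the class at a prime at which `θ - c` is a unit. -/
theorem near_c {v : HeightOneSpectrum k[X]} {𝔓 : HeightOneSpectrum O}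
    {j : v.adicCompletion K →+* 𝔓.adicCompletion L}
    (hj1 : ∀ x : K, j (algebraMap K (v.adicCompletion K) x) =
      algebraMap L (𝔓.adicCompletion L) (algebraMap K L x))
    (hj3 : ∀ y, Valued.v y < 1 → Valued.v (j y) < 1)
    {z : v.adicCompletion K} {D c : k[X]} (hD : D ≠ 0)
    (hc : Valued.v (z - algebraMap K (v.adicCompletion K) (algebraMap k[X] K c)) < 1)
    {α : L} (hα : α ≠ 0) {g : 𝔓.adicCompletion L}
    (hg : j (algebraMap K (v.adicCompletion K) (algebraMap k[X] K D)) *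
      (j z - algebraMap L (𝔓.adicCompletion L) θ) *
      algebraMap L (𝔓.adicCompletion L) α = g ^ 2)
    (hθc : 𝔓.valuation L (θ - algebraMap k[X] L c) = 1) :
    Sq1 𝔓 (α * (algebraMap k[X] L D * (algebraMap k[X] L c - θ))) := by
  have hDL : algebraMap k[X] L D ≠ 0 := by
    rw [IsScalarTower.algebraMap_apply k[X] K L, Ne, map_eq_zero,
      IsFractionRing.to_map_eq_zero_iff (R := k[X])]
    exact hD
  have hv1 : 𝔓.valuation L (algebraMap k[X] L c - θ) = 1 := by
    rw [Valuation.map_sub_swap]; exact hθc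
  have hcθ : algebraMap k[X] L c - θ ≠ 0 := by
    intro h0
    rw [h0, map_zero] at hv1
    exact zero_ne_one hv1
  set t := algebraMap L (𝔓.adicCompletion L) θ with ht
  set c' := algebraMap L (𝔓.adicCompletion L) (algebraMap k[X] L c) with hc'
  set d' := algebraMap L (𝔓.adicCompletion L) (algebraMap k[X] L D) with hd'
  have jD : j (algebraMap K (v.adicCompletion K) (algebraMap k[X] K D)) = d' := by
    rw [hj1, ← IsScalarTower.algebraMap_apply k[X] K L]
  have jc : j (algebraMap K (v.adicCompletion K) (algebraMap k[X] K c)) = c' := by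
    rw [hj1, ← IsScalarTower.algebraMap_apply k[X] K L]
  have hct : c' - t ≠ 0 := by
    rw [hc', ht, ← map_sub]
    exact alg_ne hcθ
  have vct : Valued.v (c' - t) = 1 := by
    rw [hc', ht, ← map_sub, vx, hv1]
  have hzc : Valued.v (j z - c') < 1 := by
    rw [← jc, ← map_sub]
    exact hj3 _ hc
  set β := α * (algebraMap k[X] L D * (algebraMap k[X] L c - θ)) with hβ
  have hβ0 : β ≠ 0 := mul_ne_zero hα (mul_ne_zero hDL hcθ)
  have hβE : algebraMap L (𝔓.adicCompletion L) β =
      algebraMap L (𝔓.adicCompletion L) α * (d' * (c' - t)) := by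
    rw [hβ, map_mul, map_mul, map_sub]
  refine sq1_of 𝔓 β g ?_
  have e : algebraMap L (𝔓.adicCompletion L) β - g ^ 2 =
      - (algebraMap L (𝔓.adicCompletion L) β * ((j z - c') / (c' - t))) := by
    rw [← hg, jD, hβE]
    field_simp
    ring
  rw [e, Valuation.map_neg, map_mul, map_div₀, vct, div_one]
  calc _ < Valued.v (algebraMap L (𝔓.adicCompletion L) β) * 1 :=
        mul_lt_mul_of_pos_left hzc (zero_lt_iff.2 ((Valuation.ne_zero_iff _).2 (alg_ne hβ0)))
    _ = _ := mul_one _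

/-- The value of the cubic polynomial at `z ≡ c`. -/
theorem val_f {v : HeightOneSpectrum k[X]} {z : v.adicCompletion K} (a b : k[X]) {c : k[X]}
    (hc : Valued.v (z - algebraMap K (v.adicCompletion K) (algebraMap k[X] K c)) < 1) :
    Valued.v ((z ^ 3 + algebraMap K (v.adicCompletion K) (algebraMap k[X] K a) * z +
      algebraMap K (v.adicCompletion K) (algebraMap k[X] K b)) -
      algebraMap K (v.adicCompletion K) (algebraMap k[X] K (c ^ 3 + a * c + b))) < 1 := by
  set A := algebraMap K (v.adicCompletion K) (algebraMap k[X] K a) with hA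
  set B := algebraMap K (v.adicCompletion K) (algebraMap k[X] K b) with hB
  set c' := algebraMap K (v.adicCompletion K) (algebraMap k[X] K c) with hc'
  have vA : Valued.v A ≤ 1 := by rw [hA, vx]; exact val_le_one a
  have vc' : Valued.v c' ≤ 1 := by rw [hc', vx]; exact val_le_one c
  have vz : Valued.v z ≤ 1 := by
    have e : z = (z - c') + c' := by ring
    rw [e]
    exact (Valuation.map_add _ _ _).trans (max_le hc.le vc')
  have e : (z ^ 3 + A * z + B) - algebraMap K (v.adicCompletion K)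
      (algebraMap k[X] K (c ^ 3 + a * c + b)) = (z - c') * (z ^ 2 + z * c' + c' ^ 2 + A) := by
    simp only [map_add, map_mul, map_pow, ← hA, ← hB, ← hc']
    ring
  rw [e, map_mul]
  refine mlt' hc ?_
  refine (Valuation.map_add _ _ _).trans (max_le ?_ vA)
  refine (Valuation.map_add _ _ _).trans (max_le ?_ ?_)
  · refine (Valuation.map_add _ _ _).trans (max_le ?_ ?_)
    · rw [map_pow]; exact pow_le_one' vz 2
    · rw [map_mul]; exact mul_le_one' vz vc'
  · rw [map_pow]; exact pow_le_one' vc' 2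

end pt

theorem l2 : S_L2 := by
  intro k K L O _ _ _ _ _ _ _ _ _ _ _ _ _ _ _ _ a b θ h6 h Q v hQ hv hnd u hu α hα hl
  have hθ : ∀ 𝔓 : HeightOneSpectrum O, 𝔓.valuation L θ ≤ 1 := fun 𝔓 => val_int 𝔓 (tht_int h)
  have hQ0 : Q ≠ 0 := hQ.ne_zero
  have hu0 : u ≠ 0 := by
    rintro rfl
    exact hu (dvd_zero Q)
  have hQu : Q * u ≠ 0 := mul_ne_zero hQ0 hu0
  set δ := algebraMap K (v.adicCompletion K) (algebraMap k[X] K (Q * u)) with hδ
  have hδ0 : δ ≠ 0 := by
    rw [hδ, Ne, map_eq_zero, FaithfulSMul.algebraMap_eq_zero_iff]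
    exact hQu
  have vδ : Valued.v δ = exp (-1 : ℤ) := by
    rw [hδ, vx, map_mul, map_mul, val_eq_one hv hu, mul_one,
      HeightOneSpectrum.valuation_of_algebraMap]
    exact v.intValuation_singleton hQ0 hv
  rcases loc_casesL (O := O) h hl with H | ⟨z, w, hw, hzw, H⟩
  · left
    intro 𝔓 h𝔓
    obtain ⟨j, hj1, hj2, hj3⟩ := cmap (K := K) (L := L) hQ hv h𝔓
    obtain ⟨g, hg⟩ := H 𝔓 j hj1
    refine sq1_of 𝔓 α g ?_
    rw [← hg, sub_self, map_zero]
    exact zero_lt_iff.2 ((Valuation.ne_zero_iff _).2 (alg_ne hα))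
  · by_cases hz : Valued.v z ≤ 1
    · right
      obtain ⟨c, hc⟩ := resid z hz
      refine ⟨c, ?_, ?_⟩
      · by_contra hn
        have h3 := val_f a b hc
        set y := z ^ 3 + algebraMap K (v.adicCompletion K) (algebraMap k[X] K a) * z +
          algebraMap K (v.adicCompletion K) (algebraMap k[X] K b) with hy
        have h4 : Valued.v (algebraMap K (v.adicCompletion K)
            (algebraMap k[X] K (c ^ 3 + a * c + b))) = 1 := by
          rw [vx]
          exact val_eq_one hv hn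
        have h5 : Valued.v y = 1 := by
          have e : y = (y - algebraMap K (v.adicCompletion K)
            (algebraMap k[X] K (c ^ 3 + a * c + b))) + algebraMap K (v.adicCompletion K)
            (algebraMap k[X] K (c ^ 3 + a * c + b)) := by ring
          rw [e, Valuation.map_add_eq_of_lt_right _ (by rw [h4]; exact h3), h4]
        have h6 := congrArg (Valued.v : v.adicCompletion K → WithZero (Multiplicative ℤ)) hzw
        rw [map_pow, map_mul, h5, mul_one, vδ] at h6
        refine exp_odd (x := 1) (y := Valued.v w) (n := (-1 : ℤ)) ⟨-1, by norm_num⟩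
          one_ne_zero ?_
        rw [one_pow, one_mul]
        exact h6.symm
      · intro 𝔓 h𝔓 hθc
        obtain ⟨j, hj1, hj2, hj3⟩ := cmap (K := K) (L := L) hQ hv h𝔓
        obtain ⟨g, hg⟩ := H 𝔓 j hj1
        exact near_c hj1 hj3 hQu hc hα hg hθc
    · rw [not_le] at hz
      left
      intro 𝔓 h𝔓
      obtain ⟨j, hj1, hj2, hj3⟩ := cmap (K := K) (L := L) hQ hv h𝔓
      obtain ⟨g, hg⟩ := H 𝔓 j hj1
      exact far hQ hv h𝔓 (hθ 𝔓) hj1 hj2 hj3 hδ0 hzw hz hα hg

/-! ### LOCE -/

theorem loce : S_LOCE := by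
  intro k K L O _ _ _ _ _ _ _ _ _ _ _ _ _ _ _ _ a b θ h6 h P v hP hv hsq D hD α hα hN hl 𝔓 h𝔓
  have hθ : ∀ 𝔓 : HeightOneSpectrum O, 𝔓.valuation L θ ≤ 1 := fun 𝔓 => val_int 𝔓 (tht_int h)
  have hD0 : D ≠ 0 := by
    rintro rfl
    exact hD (dvd_zero P)
  set δ := algebraMap K (v.adicCompletion K) (algebraMap k[X] K D) with hδ
  have hδ0 : δ ≠ 0 := by
    rw [hδ, Ne, map_eq_zero, FaithfulSMul.algebraMap_eq_zero_iff]
    exact hD0
  rcases loc_casesL (O := O) h hl with H | ⟨z, w, hw, hzw, H⟩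
  · obtain ⟨j, hj1, hj2, hj3⟩ := cmap (K := K) (L := L) hP hv h𝔓
    obtain ⟨g, hg⟩ := H 𝔓 j hj1
    exact ev_of 𝔓 α g (by rw [hg, map_pow])
  · by_cases hz : Valued.v z ≤ 1
    · obtain ⟨c, hc⟩ := resid z hz
      have key : ∀ 𝔮 : HeightOneSpectrum O, Ov P 𝔮 →
          ¬ (𝔮.valuation L (θ - algebraMap k[X] L c) < 1) → Ev 𝔮 α := by
        intro 𝔮 hq hlt
        have h3 : 𝔮.valuation L (θ - algebraMap k[X] L c) = 1 :=
          le_antisymm ((Valuation.map_sub _ _ _).trans (max_le (hθ 𝔮) (valO_le_one 𝔮 c)))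
            (not_lt.1 hlt)
        obtain ⟨j, hj1, hj2, hj3⟩ := cmap (K := K) (L := L) hP hv hq
        obtain ⟨g, hg⟩ := H 𝔮 j hj1
        obtain ⟨y, hy⟩ := Pool.Agent.N704.PP.ev_of_sq1 𝔮 (near_c hj1 hj3 hD0 hc hα hg h3)
        refine ⟨y, ?_⟩
        rw [map_mul, map_mul, valO_eq_one hP hq hD, Valuation.map_sub_swap, h3, one_mul,
          mul_one] at hy
        exact hy
      by_cases hcc : 𝔓.valuation L (θ - algebraMap k[X] L c) < 1
      · refine parL h6 h hP hsq h𝔓 hcc hα hN ?_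
        intro 𝔮 hq hne'
        refine key 𝔮 hq fun hlt => hne' ?_
        exact uniqL h hP hsq hq h𝔓 hlt hcc
      · exact key 𝔓 h𝔓 hcc
    · rw [not_le] at hz
      obtain ⟨j, hj1, hj2, hj3⟩ := cmap (K := K) (L := L) hP hv h𝔓
      obtain ⟨g, hg⟩ := H 𝔓 j hj1
      exact Pool.Agent.N704.PP.ev_of_sq1 𝔓 (far hP hv h𝔓 (hθ 𝔓) hj1 hj2 hj3 hδ0 hzw hz hα hg)

end Run7.h298.TS
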