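import Pool.Agent.Run7.h298.TS.L2

/-! # R2 (project TS of helper875) -/

set_option autoImplicit false
set_option linter.all false

open Polynomial IsDedekindDomain WithZero
open Pool.Agent.N874.PP Pool.Agent.TH115.GD Run7.h875.TS
open Pool.Agent.N704.PP (vx sq1_of ev_of near_one resid cmap mlt mlt' exp_odd val_le_one val_lt_one
  val_eq_one valO_le_one valO_lt_one valO_eq_one j_unit j_big val_int sq_or_poly)
open Pool.Agent.N765.PP (mulc co_sum ee)
open scoped Classical

namespace Run7.h298.TS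

/-! ### Coordinates over `K` -/

/-- The norm of `y 0 + y 1 θ + y 2 θ ^ 2`. -/
def nrm3 {R : Type} [CommRing R] (a b : R) (y : Fin 3 → R) : R :=
  y 0 * ((y 0 - a * y 2) * (y 0 - a * y 2) - (-b * y 2 - a * y 1) * y 1)
    - (-b * y 2) * (y 1 * (y 0 - a * y 2) - (-b * y 2 - a * y 1) * y 2)
    + (-b * y 1) * (y 1 * y 1 - (y 0 - a * y 2) * y 2)

theorem nrm3_mul {R : Type} [CommRing R] (a b : R) (y z : Fin 3 → R) :
    nrm3 a b (mulc a b y z) = nrm3 a b y * nrm3 a b z := by
  simp only [nrm3, mulc, Matrix.cons_val_zero, Matrix.cons_val_one, Matrix.cons_val]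
  ring

theorem nrm3_two {R : Type} [CommRing R] (a b : R) (y : Fin 3 → R) (h : y 2 = 0) :
    nrm3 a b y = y 0 ^ 3 + a * y 0 * y 1 ^ 2 - b * y 1 ^ 3 := by
  simp only [nrm3, h]
  ring

theorem nrm3_map {R S : Type} [CommRing R] [CommRing S] (φ : R →+* S) (a b : R) (y : Fin 3 → R) :
    φ (nrm3 a b y) = nrm3 (φ a) (φ b) (fun i => φ (y i)) := by
  simp only [nrm3, map_sub, map_mul, map_add, map_neg]

section cub

variable {k K L : Type} [Field k] [Field K] [Algebra k[X] K] [Field L] [Algebra K L]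
  [Algebra k[X] L] [IsScalarTower k[X] K L] {a b : k[X]} {θ : L}

theorem co_exp (h : IsCub K a b θ) (x : L) : x = algebraMap K L (h.co 0 x) +
    algebraMap K L (h.co 1 x) * θ + algebraMap K L (h.co 2 x) * θ ^ 2 := by
  have h1 : x = ∑ i, h.co i x • h.basis i := (h.basis.sum_repr x).symm
  conv_lhs => rw [h1]
  rw [Fin.sum_univ_three]
  simp only [h.basis_apply, vec, Algebra.smul_def,
    Matrix.cons_val_zero, Matrix.cons_val_one, Matrix.cons_val, mul_one]

theorem norm_co (h : IsCub K a b θ) (x : L) : Algebra.norm K x =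
    nrm3 (algebraMap k[X] K a) (algebraMap k[X] K b) (fun i => h.co i x) := by
  set r := h.co 0 x with hr
  set s := h.co 1 x with hs
  set t := h.co 2 x with ht
  have hx : x = algebraMap K L r + algebraMap K L s * θ + algebraMap K L t * θ ^ 2 := co_exp h x
  set A := algebraMap k[X] K a
  set B := algebraMap k[X] K b
  have h3 := Pool.Agent.N833.PP.cube h
  rw [Algebra.norm_eq_matrix_det h.basis, Matrix.det_fin_three]
  simp only [Algebra.leftMulMatrix_eq_repr_mul, h.basis_apply]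
  have e0 : x * vec θ 0 =
      algebraMap K L r + algebraMap K L s * θ + algebraMap K L t * θ ^ 2 := by
    rw [← hx]; simp [vec]
  have e1 : x * vec θ 1 =
      algebraMap K L (-(t * B)) + algebraMap K L (r - t * A) * θ + algebraMap K L s * θ ^ 2 := by
    conv_lhs => rw [hx]
    simp only [vec, Matrix.cons_val_one, Matrix.cons_val_zero, map_neg, map_sub, map_mul]
    linear_combination algebraMap K L t * h3
  have e2 : x * vec θ 2 =
      algebraMap K L (-(s * B)) + algebraMap K L (-(s * A) - t * B) * θ +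
        algebraMap K L (r - t * A) * θ ^ 2 := by
    conv_lhs => rw [hx]
    simp only [vec, Matrix.cons_val, map_neg, map_sub, map_mul]
    linear_combination (algebraMap K L s + algebraMap K L t * θ) * h3
  rw [e0, e1, e2]
  simp only [Pool.Agent.N833.PP.repr_comb h]
  simp only [nrm3, Matrix.cons_val, Matrix.cons_val_zero, Matrix.cons_val_one, ← hr, ← hs, ← ht]
  ring

theorem co_mul (h : IsCub K a b θ) (x y : L) (i : Fin 3) : h.co i (x * y) =
    mulc (algebraMap k[X] K a) (algebraMap k[X] K b) (fun i => h.co i x) (fun i => h.co i y) i := by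
  have h3 := Pool.Agent.N833.PP.cube h
  rw [← co_sum h (mulc (algebraMap k[X] K a) (algebraMap k[X] K b) (fun i => h.co i x)
    (fun i => h.co i y)) i]
  congr 1
  simp only [mulc, Matrix.cons_val_zero, Matrix.cons_val_one, Matrix.cons_val, map_sub, map_add,
    map_mul]
  conv_lhs => rw [co_exp h x, co_exp h y]
  linear_combination (algebraMap K L (h.co 1 x) * algebraMap K L (h.co 2 y) +
    algebraMap K L (h.co 2 x) * algebraMap K L (h.co 1 y) +
    algebraMap K L (h.co 2 x) * algebraMap K L (h.co 2 y) * θ) * h3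

theorem co_pow (h : IsCub K a b θ) (i l : Fin 3) : h.co l (θ ^ (i : ℕ)) = ee K i l := by
  rw [← co_sum h (ee K i) l]
  congr 1
  fin_cases i <;> simp [ee]

variable {E : Type} [Field E] [Algebra K E]

/-- `ξ ^ 2 / α` in coordinates, over the extension `E`. -/
noncomputable def sqc (h : IsCub K a b θ) (α : L) (x : Fin 3 → E) (l : Fin 3) : E :=
  ∑ i : Fin 3, ∑ j : Fin 3, algebraMap K E (h.co l (θ ^ (i : ℕ) * θ ^ (j : ℕ) / α)) * x i * x j

theorem sqc_mul (h : IsCub K a b θ) {α : L} (hα : α ≠ 0) (x : Fin 3 → E) :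
    mulc (algebraMap K E (algebraMap k[X] K a)) (algebraMap K E (algebraMap k[X] K b))
      (sqc h α x) (fun i => algebraMap K E (h.co i α)) =
    mulc (algebraMap K E (algebraMap k[X] K a)) (algebraMap K E (algebraMap k[X] K b)) x x := by
  set A := algebraMap k[X] K a
  set B := algebraMap k[X] K b
  have key : ∀ i j l : Fin 3, mulc A B (fun l => h.co l (θ ^ (i : ℕ) * θ ^ (j : ℕ) / α))
      (fun l => h.co l α) l = mulc A B (ee K i) (ee K j) l := by
    intro i j l
    rw [← co_mul h, div_mul_cancel₀ _ hα, co_mul h]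
    simp only [co_pow h]
    rfl
  have key2 : ∀ i j l : Fin 3, mulc (algebraMap K E A) (algebraMap K E B)
      (fun l => algebraMap K E (h.co l (θ ^ (i : ℕ) * θ ^ (j : ℕ) / α)))
      (fun l => algebraMap K E (h.co l α)) l =
        mulc (algebraMap K E A) (algebraMap K E B) (ee E i) (ee E j) l := by
    intro i j l
    have h1 := congrArg (algebraMap K E) (key i j l)
    have hm : ∀ (u w : Fin 3 → K), algebraMap K E (mulc A B u w l) =
        mulc (algebraMap K E A) (algebraMap K E B) (fun i => algebraMap K E (u i))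
          (fun i => algebraMap K E (w i)) l := by
      intro u w
      fin_cases l <;> simp [mulc]
    rw [hm, hm] at h1
    have he : ∀ i : Fin 3, (fun l => algebraMap K E (ee K i l)) = ee E i := by
      intro i
      funext l
      fin_cases i <;> fin_cases l <;> simp [ee]
    rw [he, he] at h1
    exact h1
  funext l
  have e1 : mulc (algebraMap K E A) (algebraMap K E B) (sqc h α x)
      (fun i => algebraMap K E (h.co i α)) l = ∑ i : Fin 3, ∑ j : Fin 3,
        mulc (algebraMap K E A) (algebraMap K E B)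
      (fun l => algebraMap K E (h.co l (θ ^ (i : ℕ) * θ ^ (j : ℕ) / α)))
      (fun l => algebraMap K E (h.co l α)) l * x i * x j := by
    simp only [Fin.sum_univ_three]
    fin_cases l <;>
    · simp only [mulc, Fin.zero_eta, Fin.mk_one, Fin.reduceFinMk, Matrix.cons_val_zero,
        Matrix.cons_val_one, Matrix.cons_val, sqc, Fin.sum_univ_three]
      ring
  rw [e1]
  simp only [key2]
  simp only [Fin.sum_univ_three]
  fin_cases l <;>
  · simp [mulc, ee]
    ring

end cub

/-! ### The algebra is reduced -/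

theorem sep_cubic {F : Type} [Field F] {A B : F} (hd : 4 * A ^ 3 + 27 * B ^ 2 ≠ 0) :
    (X ^ 3 + C A * X + C B : F[X]).Separable := by
  rw [Polynomial.separable_def']
  refine ⟨C (4 * A ^ 3 + 27 * B ^ 2)⁻¹ * (27 * (X ^ 3 + C A * X + C B) + 108 * X ^ 3 -
    54 * X * (3 * X ^ 2 + C A)), C (4 * A ^ 3 + 27 * B ^ 2)⁻¹ *
    ((4 * (3 * X ^ 2 + C A) - 9 * X ^ 2) * (3 * X ^ 2 + C A)), ?_⟩
  have e : derivative (X ^ 3 + C A * X + C B : F[X]) = 3 * X ^ 2 + C A := by
    rw [derivative_add, derivative_add, derivative_X_pow, derivative_C_mul, derivative_X,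
      derivative_C, Nat.cast_ofNat, map_ofNat]
    ring
  rw [e]
  have e2 : C (4 * A ^ 3 + 27 * B ^ 2)⁻¹ * (4 * C A ^ 3 + 27 * C B ^ 2 : F[X]) = 1 := by
    have : (4 * C A ^ 3 + 27 * C B ^ 2 : F[X]) = C (4 * A ^ 3 + 27 * B ^ 2) := by
      simp [map_ofNat]
    rw [this, ← C_mul, inv_mul_cancel₀ hd, C_1]
  rw [← e2]
  ring

theorem sq_red {F : Type} [Field F] {A B : F} (hd : 4 * A ^ 3 + 27 * B ^ 2 ≠ 0) {x : Fin 3 → F}
    (h : mulc A B x x = 0) : x = 0 := by
  set p : F[X] := C (x 0) + C (x 1) * X + C (x 2) * X ^ 2 with hp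
  have h0 := congrFun h 0
  have h1 := congrFun h 1
  have h2 := congrFun h 2
  simp only [mulc, Matrix.cons_val_zero, Matrix.cons_val_one, Matrix.cons_val, Pi.zero_apply]
    at h0 h1 h2
  have hdvd : (X ^ 3 + C A * X + C B : F[X]) ∣ p ^ 2 := by
    refine ⟨C (x 2 ^ 2) * X + C (2 * x 1 * x 2), ?_⟩
    have e0 := congrArg (C : F → F[X]) h0
    have e1 := congrArg (C : F → F[X]) h1
    have e2 := congrArg (C : F → F[X]) h2
    simp only [map_add, map_sub, map_mul, map_zero] at e0 e1 e2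
    rw [hp]
    simp only [map_mul, map_pow, map_ofNat]
    linear_combination e0 + X * e1 + X ^ 2 * e2
  have hsf := (sep_cubic hd).squarefree
  rw [hsf.dvd_pow_iff_dvd two_ne_zero] at hdvd
  have hdeg : p.natDegree < (X ^ 3 + C A * X + C B : F[X]).natDegree := by
    have d1 : (X ^ 3 + C A * X + C B : F[X]).natDegree = 3 := by compute_degree!
    have d2 : p.natDegree ≤ 2 := by rw [hp]; compute_degree
    omega
  have hp0 : p = 0 := eq_zero_of_dvd_of_natDegree_lt hdvd hdeg
  funext i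
  have c0 := congrArg (fun q : F[X] => q.coeff 0) hp0
  have c1 := congrArg (fun q : F[X] => q.coeff 1) hp0
  have c2 := congrArg (fun q : F[X] => q.coeff 2) hp0
  simp only [hp] at c0 c1 c2
  fin_cases i
  · simpa [coeff_X, coeff_C] using c0
  · simpa [coeff_X, coeff_C] using c1
  · simpa [coeff_X, coeff_C] using c2

section r2

variable {k K L O : Type} [Field k] [Field K] [Algebra k[X] K] [IsFractionRing k[X] K]
  [Field L] [Algebra K L] [Algebra k[X] L] [IsScalarTower k[X] K L] [CommRing O]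
  [IsDedekindDomain O] [Algebra O L] [IsFractionRing O L] [Algebra k[X] O]
  [IsScalarTower k[X] O L] {a b : k[X]} {θ : L}

theorem sq_eval (h : IsCub K a b θ) {v : HeightOneSpectrum k[X]} {𝔓 : HeightOneSpectrum O}
    {j : v.adicCompletion K →+* 𝔓.adicCompletion L}
    (hj1 : ∀ x : K, j (algebraMap K (v.adicCompletion K) x) =
      algebraMap L (𝔓.adicCompletion L) (algebraMap K L x)) {α : L} (hα : α ≠ 0)
    (x : Fin 3 → v.adicCompletion K) :
    (∑ i : Fin 3, j (x i) * algebraMap L (𝔓.adicCompletion L) θ ^ (i : ℕ)) ^ 2 =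
      algebraMap L (𝔓.adicCompletion L) α * (j (sqc h α x 0) +
        j (sqc h α x 1) * algebraMap L (𝔓.adicCompletion L) θ +
        j (sqc h α x 2) * algebraMap L (𝔓.adicCompletion L) θ ^ 2) := by
  set t := algebraMap L (𝔓.adicCompletion L) θ with ht
  set α' := algebraMap L (𝔓.adicCompletion L) α with hα'
  have key : ∀ i i' : Fin 3, t ^ (i : ℕ) * t ^ (i' : ℕ) = α' *
      (j (algebraMap K (v.adicCompletion K) (h.co 0 (θ ^ (i : ℕ) * θ ^ (i' : ℕ) / α))) +
      j (algebraMap K (v.adicCompletion K) (h.co 1 (θ ^ (i : ℕ) * θ ^ (i' : ℕ) / α))) * t +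
      j (algebraMap K (v.adicCompletion K) (h.co 2 (θ ^ (i : ℕ) * θ ^ (i' : ℕ) / α))) * t ^ 2) := by
    intro i i'
    have h1 := congrArg (algebraMap L (𝔓.adicCompletion L))
      (co_exp h (θ ^ (i : ℕ) * θ ^ (i' : ℕ) / α))
    simp only [map_add, map_mul, map_pow, ← hj1] at h1
    have h2 : algebraMap L (𝔓.adicCompletion L) (θ ^ (i : ℕ) * θ ^ (i' : ℕ) / α) =
        t ^ (i : ℕ) * t ^ (i' : ℕ) / α' := by
      rw [map_div₀, map_mul, map_pow, map_pow]
    rw [h2, div_eq_iff (alg_ne hα)] at h1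
    rw [h1]
    ring
  have e : (∑ i : Fin 3, j (x i) * t ^ (i : ℕ)) ^ 2 =
      ∑ i : Fin 3, ∑ i' : Fin 3, j (x i) * j (x i') * (t ^ (i : ℕ) * t ^ (i' : ℕ)) := by
    rw [pow_two, Finset.sum_mul_sum]
    refine Finset.sum_congr rfl fun i _ => Finset.sum_congr rfl fun i' _ => ?_
    ring
  rw [e]
  simp only [key]
  simp only [sqc, map_sum, map_mul]
  simp only [Fin.sum_univ_three]
  ring

/-- Scaling a pair. -/
theorem scl {v : HeightOneSpectrum k[X]} {ϖ : v.adicCompletion K}
    (hϖ : Valued.v ϖ = exp (-1 : ℤ)) {y₀ y₁ : v.adicCompletion K} (hy : y₀ ≠ 0 ∨ y₁ ≠ 0) :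
    ∃ (m : ℤ) (r s : v.adicCompletion K), y₀ = ϖ ^ m * r ∧ y₁ = ϖ ^ m * s ∧ Valued.v r ≤ 1 ∧
      Valued.v s ≤ 1 ∧ (Valued.v r = 1 ∨ Valued.v s = 1) := by
  set M := max (Valued.v y₀) (Valued.v y₁) with hM
  have hM0 : M ≠ 0 := by
    rcases hy with h | h
    · have : Valued.v y₀ ≤ M := le_max_left _ _
      intro h0
      rw [h0, le_zero_iff] at this
      exact (Valuation.ne_zero_iff _).2 h this
    · have : Valued.v y₁ ≤ M := le_max_right _ _
      intro h0
      rw [h0, le_zero_iff] at this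
      exact (Valuation.ne_zero_iff _).2 h this
  have hϖ0 : ϖ ≠ 0 := by
    rintro rfl
    rw [map_zero] at hϖ
    exact exp_ne_zero hϖ.symm
  set m : ℤ := - log M with hm
  have hvm : Valued.v (ϖ ^ m) = M := by
    rw [map_zpow₀, hϖ, ← exp_zsmul, hm]
    simp only [smul_eq_mul, mul_neg, mul_one, neg_neg]
    exact exp_log hM0
  have hϖm : ϖ ^ m ≠ 0 := zpow_ne_zero _ hϖ0
  refine ⟨m, y₀ / ϖ ^ m, y₁ / ϖ ^ m, (mul_div_cancel₀ _ hϖm).symm, (mul_div_cancel₀ _ hϖm).symm,
    ?_, ?_, ?_⟩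
  · rw [map_div₀, hvm]
    exact (div_le_one₀ (zero_lt_iff.2 hM0)).2 (le_max_left _ _)
  · rw [map_div₀, hvm]
    exact (div_le_one₀ (zero_lt_iff.2 hM0)).2 (le_max_right _ _)
  · rw [map_div₀, map_div₀, hvm]
    rcases max_choice (Valued.v y₀) (Valued.v y₁) with h | h
    · left
      rw [← h, ← hM, div_self hM0]
    · right
      rw [← h, ← hM, div_self hM0]

/-- At the prime of degree two `θ ^ 2 + c θ + c ^ 2 + a` is small. -/
theorem quad_small {Q c : k[X]} (h : IsCub K a b θ) {𝔮 : HeightOneSpectrum O} (hQ : Irreducible Q)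
    (h𝔮 : Ov Q 𝔮) (hc : RtM a b Q c) (hθc : 𝔮.valuation L (θ - algebraMap k[X] L c) = 1) :
    𝔮.valuation L (θ ^ 2 + algebraMap k[X] L c * θ + algebraMap k[X] L (c ^ 2 + a)) < 1 := by
  have e : (θ ^ 2 + algebraMap k[X] L c * θ + algebraMap k[X] L (c ^ 2 + a)) *
      (θ - algebraMap k[X] L c) = - algebraMap k[X] L (c ^ 3 + a * c + b) := by
    have := h.root
    simp only [map_add, map_mul, map_pow]
    linear_combination this
  have h1 := congrArg (𝔮.valuation L) e
  rw [map_mul, hθc, mul_one, Valuation.map_neg] at h1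
  rw [h1]
  exact (valO_lt_one hQ h𝔮 _).2 hc

theorem dsc_root {k : Type} [Field k] {a b Q c : k[X]} (hc : Q ∣ c ^ 3 + a * c + b)
    (hc' : Q ∣ 3 * c ^ 2 + a) : Q ∣ dsc a b := by
  obtain ⟨e, he⟩ := hc
  obtain ⟨e', he'⟩ := hc'
  refine ⟨e * (27 * (c ^ 3 + a * c + b) + 108 * c ^ 3 - 54 * c * (3 * c ^ 2 + a)) +
    e' * ((3 * c ^ 2 + a) * (4 * (3 * c ^ 2 + a) - 9 * c ^ 2)), ?_⟩
  unfold dsc
  linear_combination (27 * (c ^ 3 + a * c + b) + 108 * c ^ 3 - 54 * c * (3 * c ^ 2 + a)) * he +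
    (4 * (3 * c ^ 2 + a) - 9 * c ^ 2) * (3 * c ^ 2 + a) * he'

theorem half_dvd {k : Type} [Field k] (h2 : (2 : k) ≠ 0) {Q f : k[X]} (h : Q ∣ 4 * f) : Q ∣ f := by
  have e : C ((4 : k)⁻¹) * (4 * f) = f := by
    have h4 : (4 : k) ≠ 0 := by
      have : (4 : k) = 2 * 2 := by norm_num
      rw [this]; exact mul_ne_zero h2 h2
    have : (4 : k[X]) = C (4 : k) := by simp [map_ofNat]
    rw [this, ← mul_assoc, ← C_mul, inv_mul_cancel₀ h4, C_1, one_mul]
  rw [← e]
  exact Dvd.dvd.mul_left h _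

/-- The discriminant of the quadratic factor is not a square. -/
theorem no_sq {k : Type} [Field k] (h2 : (2 : k) ≠ 0) {a b Q c : k[X]} (hQ : Irreducible Q)
    (hnd : ¬ Q ∣ dsc a b) (hc : RtM a b Q c) (huniq : ∀ c' : k[X], RtM a b Q c' → Q ∣ c' - c)
    (z : k[X]) : ¬ Q ∣ z ^ 2 + (3 * c ^ 2 + 4 * a) := by
  intro hz
  have h2' : C ((2 : k)⁻¹) * (2 : k[X]) = 1 := by
    have : (2 : k[X]) = C (2 : k) := by simp [map_ofNat]
    rw [this, ← C_mul, inv_mul_cancel₀ h2, C_1]
  set t : k[X] := C ((2 : k)⁻¹) * (z - c) with ht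
  have ht2 : 2 * t = z - c := by
    rw [ht]
    linear_combination (z - c) * h2'
  have h3 : Q ∣ t ^ 2 + c * t + c ^ 2 + a := by
    apply half_dvd h2
    have e : 4 * (t ^ 2 + c * t + c ^ 2 + a) = z ^ 2 + (3 * c ^ 2 + 4 * a) := by
      linear_combination (2 * t + z + c) * ht2
    rw [e]
    exact hz
  have h4 : RtM a b Q t := by
    unfold RtM
    have e : t ^ 3 + a * t + b = (t - c) * (t ^ 2 + c * t + c ^ 2 + a) + (c ^ 3 + a * c + b) := by
      ring
    rw [e]
    exact dvd_add (Dvd.dvd.mul_left h3 _) hc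
  obtain ⟨d, hd⟩ := huniq t h4
  apply hnd
  refine dsc_root hc ?_
  obtain ⟨d', hd'⟩ := h3
  refine ⟨d' - d * (t + 2 * c), ?_⟩
  linear_combination hd' - (t + 2 * c) * hd

/-- Polynomials are squares at the prime of degree two. -/
theorem sq_two [Finite k] (h2 : (2 : k) ≠ 0) {Q c : k[X]} (h : IsCub K a b θ)
    {𝔮 : HeightOneSpectrum O} (hQ : Irreducible Q) (hnd : ¬ Q ∣ dsc a b)
    (h𝔮 : Ov Q 𝔮) (hc : RtM a b Q c) (huniq : ∀ c' : k[X], RtM a b Q c' → Q ∣ c' - c)
    (hθc : 𝔮.valuation L (θ - algebraMap k[X] L c) = 1) (u : k[X]) :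
    ∃ σ : L, 𝔮.valuation L (σ ^ 2 - algebraMap k[X] L u) < 1 := by
  have hns := no_sq h2 hQ hnd hc huniq
  have hqs := quad_small h hQ h𝔮 hc hθc
  set A' : k[X] := 3 * c ^ 2 + 4 * a with hA'
  set ψ : L := 2 * θ + algebraMap k[X] L c with hψ
  have hψ2 : ψ ^ 2 + algebraMap k[X] L A' =
      4 * (θ ^ 2 + algebraMap k[X] L c * θ + algebraMap k[X] L (c ^ 2 + a)) := by
    rw [hψ, hA']
    simp only [map_add, map_mul, map_pow, map_ofNat]
    ring
  have hsm : 𝔮.valuation L (ψ ^ 2 + algebraMap k[X] L A') < 1 := by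
    rw [hψ2, map_mul]
    refine mlt ?_ hqs
    have : (4 : L) = algebraMap k[X] L 4 := by simp [map_ofNat]
    rw [this]
    exact valO_le_one 𝔮 _
  have hA1 : 𝔮.valuation L (algebraMap k[X] L A') = 1 := by
    refine valO_eq_one hQ h𝔮 fun hd => ?_
    exact hns 0 (by simpa using hd)
  have hψ1 : 𝔮.valuation L (ψ ^ 2) = 1 := by
    have e : ψ ^ 2 = (ψ ^ 2 + algebraMap k[X] L A') - algebraMap k[X] L A' := by ring
    rw [e, Valuation.map_sub_eq_of_lt_right _ (by rw [hA1]; exact hsm), hA1]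
  have hψ0 : ψ ≠ 0 := by
    rintro h0
    rw [h0, zero_pow two_ne_zero, map_zero] at hψ1
    exact zero_ne_one hψ1
  rcases sq_or_poly hQ hns u with ⟨w, hw⟩ | ⟨w, hw⟩
  · refine ⟨algebraMap k[X] L w, ?_⟩
    rw [← map_pow, ← map_sub]
    exact (valO_lt_one hQ h𝔮 _).2 hw
  · refine ⟨algebraMap k[X] L w / ψ, ?_⟩
    have e : (algebraMap k[X] L w / ψ) ^ 2 - algebraMap k[X] L u =
        (algebraMap k[X] L (w ^ 2 + A' * u) -
          algebraMap k[X] L u * (ψ ^ 2 + algebraMap k[X] L A')) / ψ ^ 2 := by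
      rw [map_add, map_pow, map_mul]
      field_simp
      ring
    rw [e, map_div₀, hψ1, div_one]
    refine lt_of_le_of_lt (Valuation.map_sub _ _ _) (max_lt ((valO_lt_one hQ h𝔮 _).2 hw) ?_)
    rw [map_mul]
    exact mlt (valO_le_one 𝔮 _) hsm

/-- `θ` is not congruent to a polynomial at the prime of degree two. -/
theorem indep {Q c : k[X]} (h : IsCub K a b θ) {𝔮 : HeightOneSpectrum O} (hQ : Irreducible Q)
    (h𝔮 : Ov Q 𝔮) (huniq : ∀ c' : k[X], RtM a b Q c' → Q ∣ c' - c)
    (hθ : 𝔮.valuation L θ ≤ 1)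
    (hθc : 𝔮.valuation L (θ - algebraMap k[X] L c) = 1) {r s : k[X]}
    (hrs : 𝔮.valuation L (algebraMap k[X] L r + algebraMap k[X] L s * θ) < 1) : Q ∣ r ∧ Q ∣ s := by
  have hs : Q ∣ s := by
    by_contra hs
    obtain ⟨s', hs'⟩ := Pool.Agent.N704.PP.exists_inv_mod hQ hs
    set t : k[X] := - (s' * r) with ht
    have h1 : 𝔮.valuation L (θ - algebraMap k[X] L t) < 1 := by
      have e : θ - algebraMap k[X] L t = algebraMap k[X] L s' *
          (algebraMap k[X] L r + algebraMap k[X] L s * θ) +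
          algebraMap k[X] L (1 - s * s') * θ := by
        rw [ht, map_neg, map_mul, map_sub, map_one, map_mul]; ring
      rw [e]
      refine lt_of_le_of_lt (Valuation.map_add _ _ _) (max_lt ?_ ?_)
      · rw [map_mul]
        exact mlt (valO_le_one 𝔮 _) hrs
      · rw [map_mul]
        exact mlt' ((valO_lt_one hQ h𝔮 _).2 hs') hθ
    have h2 : RtM a b Q t := by
      unfold RtM
      rw [← valO_lt_one (L := L) hQ h𝔮]
      have e : algebraMap k[X] L (t ^ 3 + a * t + b) = - ((θ - algebraMap k[X] L t) *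
          (θ ^ 2 + θ * algebraMap k[X] L t + algebraMap k[X] L t ^ 2 + algebraMap k[X] L a)) := by
        have := h.root
        simp only [map_add, map_mul, map_pow]
        linear_combination this
      rw [e, Valuation.map_neg, map_mul]
      refine mlt' h1 ?_
      refine (Valuation.map_add _ _ _).trans (max_le ?_ (valO_le_one 𝔮 _))
      refine (Valuation.map_add _ _ _).trans (max_le ?_ ?_)
      · refine (Valuation.map_add _ _ _).trans (max_le ?_ ?_)
        · rw [map_pow]; exact pow_le_one' hθ 2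
        · rw [map_mul]; exact mul_le_one' hθ (valO_le_one 𝔮 _)
      · rw [map_pow]; exact pow_le_one' (valO_le_one 𝔮 _) 2
    have h3 := huniq t h2
    have h4 : 𝔮.valuation L (θ - algebraMap k[X] L c) < 1 := by
      have e : θ - algebraMap k[X] L c = (θ - algebraMap k[X] L t) + algebraMap k[X] L (t - c) := by
        rw [map_sub]; ring
      rw [e]
      exact lt_of_le_of_lt (Valuation.map_add _ _ _) (max_lt h1 ((valO_lt_one hQ h𝔮 _).2 h3))
    rw [hθc] at h4
    exact lt_irrefl _ h4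
  refine ⟨?_, hs⟩
  rw [← valO_lt_one (L := L) hQ h𝔮]
  have e : algebraMap k[X] L r = (algebraMap k[X] L r + algebraMap k[X] L s * θ) -
      algebraMap k[X] L s * θ := by ring
  rw [e]
  refine lt_of_le_of_lt (Valuation.map_sub _ _ _) (max_lt hrs ?_)
  rw [map_mul]
  exact mlt' ((valO_lt_one hQ h𝔮 _).2 hs) hθ


/-- The isotropic vector. -/
theorem iso_norm (h : IsCub K a b θ) (hd : dsc a b ≠ 0) {v : HeightOneSpectrum k[X]} {α : L}
    (hα : α ≠ 0) (hN : IsSquare (Algebra.norm K α)) {x : Fin 3 → v.adicCompletion K} (hx0 : x ≠ 0)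
    (hx : sqc h α x 2 = 0) : (sqc h α x 0 ≠ 0 ∨ sqc h α x 1 ≠ 0) ∧ ∃ w : v.adicCompletion K,
      sqc h α x 0 ^ 3 + algebraMap K (v.adicCompletion K) (algebraMap k[X] K a) * sqc h α x 0 *
        sqc h α x 1 ^ 2 - algebraMap K (v.adicCompletion K) (algebraMap k[X] K b) *
        sqc h α x 1 ^ 3 = w ^ 2 := by
  have hfin : Module.Finite K L := Module.Finite.of_basis h.basis
  set A := algebraMap K (v.adicCompletion K) (algebraMap k[X] K a) with hA
  set B := algebraMap K (v.adicCompletion K) (algebraMap k[X] K b) with hB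
  have hm := sqc_mul (E := v.adicCompletion K) h hα x
  have hdK : 4 * A ^ 3 + 27 * B ^ 2 ≠ 0 := by
    have e : 4 * A ^ 3 + 27 * B ^ 2 =
        algebraMap K (v.adicCompletion K) (algebraMap k[X] K (dsc a b)) := by
      rw [hA, hB]
      unfold dsc
      simp only [map_add, map_mul, map_pow, map_ofNat]
    rw [e, Ne, map_eq_zero, FaithfulSMul.algebraMap_eq_zero_iff]
    exact hd
  refine ⟨?_, ?_⟩
  · by_contra hcon
    push Not at hcon
    apply hx0
    refine sq_red hdK (A := A) (B := B) ?_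
    rw [← hm]
    have hy : sqc h α x = 0 := by
      funext l
      fin_cases l
      · exact hcon.1
      · exact hcon.2
      · exact hx
    rw [hy]
    funext l
    fin_cases l <;> simp [mulc]
  · obtain ⟨n, hn⟩ := hN
    have hn0 : n ≠ 0 := by
      rintro rfl
      rw [mul_zero, Algebra.norm_eq_zero_iff] at hn
      exact hα hn
    have h1 := congrArg (nrm3 A B) hm
    rw [nrm3_mul, nrm3_mul, nrm3_two A B _ hx] at h1
    have h2 : nrm3 A B (fun i => algebraMap K (v.adicCompletion K) (h.co i α)) =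
        algebraMap K (v.adicCompletion K) n * algebraMap K (v.adicCompletion K) n := by
      rw [hA, hB, ← nrm3_map, ← norm_co h, hn, map_mul]
    rw [h2] at h1
    have hn1 : algebraMap K (v.adicCompletion K) n ≠ 0 := by
      rw [Ne, map_eq_zero]; exact hn0
    refine ⟨nrm3 A B x / algebraMap K (v.adicCompletion K) n, ?_⟩
    rw [div_pow, eq_div_iff (pow_ne_zero 2 hn1), pow_two (algebraMap K (v.adicCompletion K) n), h1,
      pow_two]

/-- The pair `r`, `s` modulo `Q`. -/
theorem rs_mod {Q c : k[X]} (hQ : Irreducible Q) {v : HeightOneSpectrum k[X]}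
    (hv : v.asIdeal = Ideal.span {Q}) (huniq : ∀ c' : k[X], RtM a b Q c' → Q ∣ c' - c)
    {r s : v.adicCompletion K} {r₀ s₀ : k[X]}
    (hr : Valued.v (r - algebraMap K (v.adicCompletion K) (algebraMap k[X] K r₀)) < 1)
    (hs : Valued.v (s - algebraMap K (v.adicCompletion K) (algebraMap k[X] K s₀)) < 1)
    (hrs : Valued.v (r ^ 3 + algebraMap K (v.adicCompletion K) (algebraMap k[X] K a) * r * s ^ 2 -
      algebraMap K (v.adicCompletion K) (algebraMap k[X] K b) * s ^ 3) < 1)
    (h0 : ¬ (Q ∣ r₀ ∧ Q ∣ s₀)) : ¬ Q ∣ s₀ ∧ Q ∣ r₀ + c * s₀ := by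
  set A := algebraMap K (v.adicCompletion K) (algebraMap k[X] K a) with hA
  set B := algebraMap K (v.adicCompletion K) (algebraMap k[X] K b) with hB
  set R := algebraMap K (v.adicCompletion K) (algebraMap k[X] K r₀) with hR
  set S := algebraMap K (v.adicCompletion K) (algebraMap k[X] K s₀) with hS
  have vA : Valued.v A ≤ 1 := by rw [hA, vx]; exact val_le_one a
  have vB : Valued.v B ≤ 1 := by rw [hB, vx]; exact val_le_one b
  have vR : Valued.v R ≤ 1 := by rw [hR, vx]; exact val_le_one r₀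
  have vS : Valued.v S ≤ 1 := by rw [hS, vx]; exact val_le_one s₀
  have vr : Valued.v r ≤ 1 := by
    have e : r = (r - R) + R := by ring
    rw [e]
    exact (Valuation.map_add _ _ _).trans (max_le hr.le vR)
  have vs : Valued.v s ≤ 1 := by
    have e : s = (s - S) + S := by ring
    rw [e]
    exact (Valuation.map_add _ _ _).trans (max_le hs.le vS)
  have le_add : ∀ {x y : v.adicCompletion K}, Valued.v x ≤ 1 → Valued.v y ≤ 1 →
      Valued.v (x + y) ≤ 1 := fun hx hy => (Valuation.map_add _ _ _).trans (max_le hx hy)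
  have le_mul : ∀ {x y : v.adicCompletion K}, Valued.v x ≤ 1 → Valued.v y ≤ 1 →
      Valued.v (x * y) ≤ 1 := fun hx hy => by rw [map_mul]; exact mul_le_one' hx hy
  have le_pow : ∀ {x : v.adicCompletion K} (n : ℕ), Valued.v x ≤ 1 → Valued.v (x ^ n) ≤ 1 :=
    fun n hx => by rw [map_pow]; exact pow_le_one' hx n
  have h1 : Q ∣ r₀ ^ 3 + a * r₀ * s₀ ^ 2 - b * s₀ ^ 3 := by
    rw [← val_lt_one (K := K) hv, ← vx]
    have e : algebraMap K (v.adicCompletion K)
        (algebraMap k[X] K (r₀ ^ 3 + a * r₀ * s₀ ^ 2 - b * s₀ ^ 3)) =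
        (r ^ 3 + A * r * s ^ 2 - B * s ^ 3) - (r - R) * (r ^ 2 + r * R + R ^ 2 + A * S ^ 2) -
          (s - S) * (A * r * (s + S) + B * -(s ^ 2 + s * S + S ^ 2)) := by
      simp only [map_add, map_sub, map_mul, map_pow, ← hA, ← hB, ← hR, ← hS]
      ring
    rw [e]
    refine lt_of_le_of_lt (Valuation.map_sub _ _ _) (max_lt ?_ ?_)
    · refine lt_of_le_of_lt (Valuation.map_sub _ _ _) (max_lt hrs ?_)
      rw [map_mul]
      refine mlt' hr (le_add (le_add (le_add (le_pow 2 vr) (le_mul vr vR)) (le_pow 2 vR))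
        (le_mul vA (le_pow 2 vS)))
    · rw [map_mul]
      refine mlt' hs (le_add (le_mul (le_mul vA vr) (le_add vs vS)) (le_mul vB ?_))
      rw [Valuation.map_neg]
      exact le_add (le_add (le_pow 2 vs) (le_mul vs vS)) (le_pow 2 vS)
  have hs0 : ¬ Q ∣ s₀ := by
    intro hd
    apply h0
    refine ⟨?_, hd⟩
    have h2 : Q ∣ r₀ ^ 3 := by
      have e : r₀ ^ 3 = (r₀ ^ 3 + a * r₀ * s₀ ^ 2 - b * s₀ ^ 3) -
        s₀ * (a * r₀ * s₀ - b * s₀ ^ 2) := by ring
      rw [e]
      exact dvd_sub h1 (Dvd.dvd.mul_right hd _)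
    exact hQ.prime.dvd_of_dvd_pow h2
  refine ⟨hs0, ?_⟩
  obtain ⟨s', d, hd⟩ := Pool.Agent.N704.PP.exists_inv_mod hQ hs0
  obtain ⟨e, he⟩ := h1
  have h2 : RtM a b Q (-(s' * r₀)) := by
    unfold RtM
    -- `s₀ ^ 3 * (…)` is divisible by `Q`
    have h3 : Q ∣ s₀ ^ 3 * ((-(s' * r₀)) ^ 3 + a * (-(s' * r₀)) + b) := by
      refine ⟨- e + d * (r₀ ^ 3 * (1 + s₀ * s' + (s₀ * s') ^ 2) + a * r₀ * s₀ ^ 2), ?_⟩
      linear_combination (- he) + (r₀ ^ 3 * (1 + s₀ * s' + (s₀ * s') ^ 2) + a * r₀ * s₀ ^ 2) * hd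
    rcases hQ.prime.dvd_or_dvd h3 with h4 | h4
    · exact absurd (hQ.prime.dvd_of_dvd_pow h4) hs0
    · exact h4
  obtain ⟨f, hf⟩ := huniq _ h2
  refine ⟨d * r₀ - f * s₀, ?_⟩
  linear_combination (- s₀) * hf + r₀ * hd

end r2

theorem r2 : S_R2 := by
  intro k K L O _ _ _ _ _ _ _ _ _ _ _ _ _ _ _ _ a b θ h6 h Q v hQ hv hnd c hc huniq α hα hN hiso
    𝔮 h𝔮 hθc hodd
  have h2 : (2 : k) ≠ 0 := by
    intro h0
    apply h6
    have : (6 : k) = 2 * 3 := by norm_num
    rw [this, h0, zero_mul]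
  have hθ : 𝔮.valuation L θ ≤ 1 := val_int 𝔮 (tht_int h)
  have hQ0 : Q ≠ 0 := hQ.ne_zero
  have hd0 : dsc a b ≠ 0 := fun h0 => hnd (h0 ▸ dvd_zero _)
  obtain ⟨x, hx0, hx⟩ := hiso
  have hx' : sqc h α x 2 = 0 := hx
  obtain ⟨hy, w, hw⟩ := iso_norm h hd0 hα hN hx0 hx'
  set ϖ := algebraMap K (v.adicCompletion K) (algebraMap k[X] K Q) with hϖ
  have vϖ : Valued.v ϖ = exp (-1 : ℤ) := by
    rw [hϖ, vx, HeightOneSpectrum.valuation_of_algebraMap]
    exact v.intValuation_singleton hQ0 hv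
  have hϖ0 : ϖ ≠ 0 := by
    intro h0
    rw [h0, map_zero] at vϖ
    exact exp_ne_zero vϖ.symm
  obtain ⟨m, r, s, hr, hs, vr, vs, hrs⟩ := scl vϖ hy
  obtain ⟨j, hj1, hj2, hj3⟩ := cmap (K := K) (L := L) hQ hv h𝔮
  obtain ⟨r₀, hr₀⟩ := resid r vr
  obtain ⟨s₀, hs₀⟩ := resid s vs
  have h0 : ¬ (Q ∣ r₀ ∧ Q ∣ s₀) := by
    rintro ⟨h1, h2⟩
    have small : ∀ {y : v.adicCompletion K} {y₀ : k[X]},
        Valued.v (y - algebraMap K (v.adicCompletion K) (algebraMap k[X] K y₀)) < 1 → Q ∣ y₀ →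
        Valued.v y < 1 := by
      intro y y₀ h3 h4
      have e : y = (y - algebraMap K (v.adicCompletion K) (algebraMap k[X] K y₀)) +
        algebraMap K (v.adicCompletion K) (algebraMap k[X] K y₀) := by ring
      rw [e]
      refine lt_of_le_of_lt (Valuation.map_add _ _ _) (max_lt h3 ?_)
      rw [vx, val_lt_one hv]
      exact h4
    rcases hrs with h5 | h5
    · exact absurd h5 (small hr₀ h1).ne
    · exact absurd h5 (small hs₀ h2).ne
  -- notation in the completion at `𝔮`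
  set t := algebraMap L (𝔮.adicCompletion L) θ with ht
  have vt : Valued.v t ≤ 1 := by rw [ht, vx]; exact hθ
  have jpol : ∀ u : k[X], j (algebraMap K (v.adicCompletion K) (algebraMap k[X] K u)) =
      algebraMap L (𝔮.adicCompletion L) (algebraMap k[X] L u) := by
    intro u
    rw [hj1, ← IsScalarTower.algebraMap_apply k[X] K L]
  have jr₀ : Valued.v (j r - algebraMap L (𝔮.adicCompletion L) (algebraMap k[X] L r₀)) < 1 := by
    rw [← jpol, ← map_sub]; exact hj3 _ hr₀
  have js₀ : Valued.v (j s - algebraMap L (𝔮.adicCompletion L) (algebraMap k[X] L s₀)) < 1 := by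
    rw [← jpol, ← map_sub]; exact hj3 _ hs₀
  have vu : Valued.v (j r + j s * t) = 1 := by
    refine le_antisymm ?_ ?_
    · refine (Valuation.map_add _ _ _).trans (max_le (hj2 _ vr) ?_)
      rw [map_mul]
      exact mul_le_one' (hj2 _ vs) vt
    · rw [← not_lt]
      intro hlt
      apply h0
      refine indep h hQ h𝔮 huniq hθ hθc ?_
      rw [← vx, map_add, map_mul]
      have e : algebraMap L (𝔮.adicCompletion L) (algebraMap k[X] L r₀) +
          algebraMap L (𝔮.adicCompletion L) (algebraMap k[X] L s₀) * t = (j r + j s * t) -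
          (j r - algebraMap L (𝔮.adicCompletion L) (algebraMap k[X] L r₀)) -
          (j s - algebraMap L (𝔮.adicCompletion L) (algebraMap k[X] L s₀)) * t := by ring
      rw [← ht, e]
      refine lt_of_le_of_lt (Valuation.map_sub _ _ _) (max_lt ?_ ?_)
      · exact lt_of_le_of_lt (Valuation.map_sub _ _ _) (max_lt hlt jr₀)
      · rw [map_mul]
        exact mlt' js₀ vt
  set G := ∑ i : Fin 3, j (x i) * t ^ (i : ℕ) with hG
  set q := algebraMap L (𝔮.adicCompletion L) (algebraMap k[X] L Q) with hq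
  have jϖ : j ϖ = q := by rw [hϖ, jpol]
  have hq0 : q ≠ 0 := by
    rw [← jϖ, Ne, map_eq_zero]; exact hϖ0
  have hG2 : G ^ 2 = algebraMap L (𝔮.adicCompletion L) α * (q ^ m * (j r + j s * t)) := by
    rw [hG, sq_eval h hj1 hα x, hx', hr, hs]
    simp only [map_mul, map_zpow₀, jϖ, map_zero]
    ring
  have hmo : Odd m := by
    rw [← Int.not_even_iff_odd]
    rintro ⟨n, hn⟩
    apply hodd
    refine ev_of 𝔮 α (G / q ^ n) ?_
    rw [← map_pow, div_pow, hG2, hn, map_div₀, map_mul, map_mul, vu, mul_one]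
    have e : q ^ (n + n) = (q ^ n) ^ 2 := by
      rw [zpow_add₀ hq0, pow_two]
    rw [e, mul_div_assoc, div_self, mul_one]
    rw [Ne, map_eq_zero]
    exact pow_ne_zero 2 (zpow_ne_zero _ hq0)
  have hrs1 : Valued.v (r ^ 3 + algebraMap K (v.adicCompletion K) (algebraMap k[X] K a) * r *
      s ^ 2 - algebraMap K (v.adicCompletion K) (algebraMap k[X] K b) * s ^ 3) < 1 := by
    set A := algebraMap K (v.adicCompletion K) (algebraMap k[X] K a) with hA
    set B := algebraMap K (v.adicCompletion K) (algebraMap k[X] K b) with hB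
    have vA : Valued.v A ≤ 1 := by rw [hA, vx]; exact val_le_one a
    have vB : Valued.v B ≤ 1 := by rw [hB, vx]; exact val_le_one b
    set D := r ^ 3 + A * r * s ^ 2 - B * s ^ 3 with hD
    have hD1 : Valued.v D ≤ 1 := by
      rw [hD]
      refine (Valuation.map_sub _ _ _).trans (max_le ?_ ?_)
      · refine (Valuation.map_add _ _ _).trans (max_le ?_ ?_)
        · rw [map_pow]; exact pow_le_one' vr 3
        · rw [map_mul, map_mul, map_pow]
          exact mul_le_one' (mul_le_one' vA vr) (pow_le_one' vs 2)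
      · rw [map_mul, map_pow]
        exact mul_le_one' vB (pow_le_one' vs 3)
    refine lt_of_le_of_ne hD1 fun hD2 => ?_
    have e : w ^ 2 = ϖ ^ (3 * m) * D := by
      rw [← hw, hr, hs, hD]
      have e3 : ϖ ^ (3 * m) = (ϖ ^ m) ^ 3 := by
        rw [mul_comm, zpow_mul]
        norm_cast
      rw [e3]
      ring
    have h3 := congrArg (Valued.v : v.adicCompletion K → WithZero (Multiplicative ℤ)) e
    rw [map_pow, map_mul, hD2, mul_one, map_zpow₀, vϖ, ← exp_zsmul] at h3
    obtain ⟨n, hn⟩ := hmo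
    refine exp_odd (x := 1) (y := Valued.v w) (n := (3 * m) • (-1 : ℤ)) ⟨-(3 * n) - 2, ?_⟩
      one_ne_zero ?_
    · simp only [smul_eq_mul, hn]
      ring
    · rw [one_pow, one_mul]
      exact h3.symm
  obtain ⟨hs1, hrc⟩ := rs_mod (a := a) (b := b) hQ hv huniq hr₀ hs₀ hrs1 h0
  obtain ⟨σ, hσ⟩ := sq_two h2 h hQ hnd h𝔮 hc huniq hθc (-s₀)
  set S := algebraMap L (𝔮.adicCompletion L) σ with hS
  set c' := algebraMap L (𝔮.adicCompletion L) (algebraMap k[X] L c) with hc'
  have vc' : Valued.v c' ≤ 1 := by rw [hc', vx]; exact valO_le_one 𝔮 _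
  have hσ1 : Valued.v (S ^ 2 + j s) < 1 := by
    have e : S ^ 2 + j s = algebraMap L (𝔮.adicCompletion L) (σ ^ 2 - algebraMap k[X] L (-s₀)) +
        (j s - algebraMap L (𝔮.adicCompletion L) (algebraMap k[X] L s₀)) := by
      rw [map_sub, map_pow, map_neg, map_neg]; ring
    rw [e]
    refine lt_of_le_of_lt (Valuation.map_add _ _ _) (max_lt ?_ js₀)
    rw [vx]
    exact hσ
  have vjs : Valued.v (j s) = 1 := by
    have e : j s = (j s - algebraMap L (𝔮.adicCompletion L) (algebraMap k[X] L s₀)) +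
      algebraMap L (𝔮.adicCompletion L) (algebraMap k[X] L s₀) := by ring
    have h5 : Valued.v (algebraMap L (𝔮.adicCompletion L) (algebraMap k[X] L s₀)) = 1 := by
      rw [vx]
      exact valO_eq_one hQ h𝔮 hs1
    rw [e, Valuation.map_add_eq_of_lt_right _ (by rw [h5]; exact js₀), h5]
  have vS : Valued.v (S ^ 2) = 1 := by
    have e : S ^ 2 = (S ^ 2 + j s) - j s := by ring
    rw [e, Valuation.map_sub_eq_of_lt_right _ (by rw [vjs]; exact hσ1), vjs]
  have hS0 : S ≠ 0 := by
    intro h5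
    rw [h5, zero_pow two_ne_zero, map_zero] at vS
    exact zero_ne_one vS
  have hrc1 : Valued.v (j r + c' * j s) < 1 := by
    have e : j r + c' * j s = algebraMap L (𝔮.adicCompletion L) (algebraMap k[X] L (r₀ + c * s₀)) +
        (j r - algebraMap L (𝔮.adicCompletion L) (algebraMap k[X] L r₀)) +
        c' * (j s - algebraMap L (𝔮.adicCompletion L) (algebraMap k[X] L s₀)) := by
      rw [map_add, map_add, map_mul, map_mul, ← hc']
      ring
    rw [e]
    refine lt_of_le_of_lt (Valuation.map_add _ _ _) (max_lt ?_ ?_)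
    · refine lt_of_le_of_lt (Valuation.map_add _ _ _) (max_lt ?_ jr₀)
      rw [vx]
      exact (valO_lt_one hQ h𝔮 _).2 hrc
    · rw [map_mul]
      exact mlt vc' js₀
  have vct : Valued.v (c' - t) = 1 := by
    rw [hc', ht, ← map_sub, vx, Valuation.map_sub_swap]
    exact hθc
  have hct : c' - t ≠ 0 := by
    intro h5
    rw [h5, map_zero] at vct
    exact zero_ne_one vct
  have hcθ : algebraMap k[X] L c - θ ≠ 0 := by
    intro h5
    apply hct
    rw [hc', ht, ← map_sub, h5, map_zero]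
  have hQL : algebraMap k[X] L Q ≠ 0 := by
    intro h5
    apply hq0
    rw [hq, h5, map_zero]
  set β := α * (algebraMap k[X] L Q * (algebraMap k[X] L c - θ)) with hβ
  have hβ0 : β ≠ 0 := mul_ne_zero hα (mul_ne_zero hQL hcθ)
  have hβE : algebraMap L (𝔮.adicCompletion L) β =
      algebraMap L (𝔮.adicCompletion L) α * (q * (c' - t)) := by
    rw [hβ, map_mul, map_mul, map_sub]
  obtain ⟨n, hn⟩ := hmo
  have hqn : q ^ n ≠ 0 := zpow_ne_zero _ hq0
  have hG3 : (G / (S * q ^ n)) ^ 2 = algebraMap L (𝔮.adicCompletion L) α *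
      (q * (j r + j s * t)) / S ^ 2 := by
    have e : q ^ m = q ^ n * q ^ n * q := by
      rw [hn, zpow_add₀ hq0, zpow_one, two_mul, zpow_add₀ hq0]
    rw [div_pow, hG2, e]
    field_simp
  refine sq1_of 𝔮 β (G / (S * q ^ n)) ?_
  have e : algebraMap L (𝔮.adicCompletion L) β - (G / (S * q ^ n)) ^ 2 =
      algebraMap L (𝔮.adicCompletion L) β *
        (((S ^ 2 + j s) * (c' - t) - (j r + c' * j s)) / (S ^ 2 * (c' - t))) := by
    rw [hG3, hβE]
    field_simp
    ring
  rw [e, map_mul, map_div₀, map_mul Valued.v (S ^ 2), vS, vct, one_mul, div_one]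
  calc _ < Valued.v (algebraMap L (𝔮.adicCompletion L) β) * 1 := by
        refine mul_lt_mul_of_pos_left ?_
          (zero_lt_iff.2 ((Valuation.ne_zero_iff _).2 (alg_ne hβ0)))
        refine lt_of_le_of_lt (Valuation.map_sub _ _ _) (max_lt ?_ hrc1)
        rw [map_mul, vct, mul_one]
        exact hσ1
    _ = _ := mul_one _

end Run7.h298.TS
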