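import Pool.Agent.Run7.h298.TS.Base

/-! # UNI (project TS of helper875) -/

set_option autoImplicit false
set_option linter.all false

open Polynomial IsDedekindDomain WithZero
open Pool.Agent.N874.PP Pool.Agent.TH115.GD Run7.h875.TS
open Pool.Agent.N765.PP (fin_over weak loc_int injL mulc hk hk_symm hk_det_mul hk_det_poly crd_uniq
  crd_mul crd_poly iso_unim isoF_iff iso_change li_mul li_pow gram)
open scoped Classical

namespace Run7.h298.TS

theorem uni : S_UNI := by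
  intro k K L O _ _ _ _ _ _ _ _ _ _ _ _ _ _ _ _ a b θ h6 h P v hP hv hsq α hα hev
  have h2 : (2 : k) ≠ 0 := by
    intro h
    apply h6
    have e : (6 : k) = 2 * 3 := by norm_num
    rw [e, h, zero_mul]
  have hfin := fin_over (K := K) (L := L) (O := O) hP.ne_zero
  have hev' : ∀ 𝔓 : HeightOneSpectrum O, ∃ y : L, Ov P 𝔓 → y ≠ 0 ∧
      𝔓.valuation L α = 𝔓.valuation L y ^ 2 := by
    intro 𝔓
    by_cases h𝔓 : Ov P 𝔓
    · obtain ⟨y, hy⟩ := hev 𝔓 h𝔓
      refine ⟨y, fun _ => ⟨?_, hy⟩⟩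
      rintro rfl
      rw [map_zero, zero_pow two_ne_zero, map_eq_zero] at hy
      exact hα hy
    · exact ⟨0, fun h => absurd h h𝔓⟩
  choose y hy using hev'
  obtain ⟨g0, hg0, hgv⟩ := weak (L := L) hfin.toFinset y (fun 𝔓 h𝔓 =>
    (hy 𝔓 (by simpa using h𝔓)).1)
  have hgv' : ∀ 𝔓 : HeightOneSpectrum O, Ov P 𝔓 → 𝔓.valuation L (g0 ^ 2 / α) = 1 := by
    intro 𝔓 h𝔓
    rw [map_div₀, map_pow, hgv 𝔓 (by simpa using h𝔓), (hy 𝔓 h𝔓).2, div_self]
    exact pow_ne_zero _ ((Valuation.ne_zero_iff _).2 (hy 𝔓 h𝔓).1)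
  obtain ⟨s0, hs0', hsi0⟩ := loc_int (K := K) hP (g0 ^ 2 / α) fun 𝔓 h𝔓 => (hgv' 𝔓 h𝔓).le
  obtain ⟨s1, hs1, d1, hd1⟩ := lint h hP hsq hsi0
  set s : k[X] := s1 * s0 with hsd
  have hs : ¬ P ∣ s := by
    intro hd
    rcases hP.prime.dvd_or_dvd hd with h3 | h3
    · exact hs1 h3
    · exact hs0' h3
  have hs0 : algebraMap k[X] L s ≠ 0 := by
    intro h
    apply hs
    have : s = 0 := injL (K := K) (L := L) (by rw [h, map_zero])
    rw [this]; exact dvd_zero P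
  set g : L := algebraMap k[X] L s * g0 with hg
  have hgne : g ≠ 0 := mul_ne_zero hs0 hg0
  have hd : Crd θ (fun i => s * d1 i) (g ^ 2 / α) := by
    have h3 := Pool.Agent.N862.PP.crd_smul s hd1
    have e : g ^ 2 / α = algebraMap k[X] L s * (algebraMap k[X] L s1 *
        (algebraMap k[X] L s0 * (g0 ^ 2 / α))) := by
      rw [hg, hsd, map_mul]; ring
    rwa [← e] at h3
  set d : Fin 3 → k[X] := fun i => s * d1 i with hdd
  have hδ0 : g ^ 2 / α ≠ 0 := div_ne_zero (pow_ne_zero _ hgne) hα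
  have hδv : ∀ 𝔓 : HeightOneSpectrum O, Ov P 𝔓 → 𝔓.valuation L (g ^ 2 / α) = 1 := by
    intro 𝔓 h𝔓
    have e : g ^ 2 / α = algebraMap k[X] L s ^ 2 * (g0 ^ 2 / α) := by
      rw [hg]; ring
    rw [e, map_mul, map_pow, Pool.Agent.N765.PP.val_eq hP h𝔓 hs, hgv' 𝔓 h𝔓, one_pow, one_mul]
  obtain ⟨s', hs', hsi'⟩ := loc_int (K := K) hP (g ^ 2 / α)⁻¹ fun 𝔓 h𝔓 => by
    rw [map_inv₀, hδv 𝔓 h𝔓, inv_one]
  obtain ⟨s2, hs2, e, he⟩ := lint h hP hsq hsi'
  have hprod : mulc a b d e = ![s2 * s', 0, 0] := by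
    refine crd_uniq h (crd_mul h hd he) ?_
    have e1 : g ^ 2 / α * (algebraMap k[X] L s2 * (algebraMap k[X] L s' * (g ^ 2 / α)⁻¹)) =
        algebraMap k[X] L (s2 * s') := by
      rw [map_mul]
      field_simp
    rw [e1]
    exact crd_poly _
  have hdet : ¬ P ∣ (Matrix.of (hk a b d)).det := by
    intro hdvd
    have h3 := hk_det_mul a b d e
    rw [hprod, hk_det_poly, neg_neg] at h3
    have h4 : P ∣ (s2 * s') ^ 3 := by
      rw [← h3]; exact Dvd.dvd.mul_right hdvd _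
    rcases hP.prime.dvd_or_dvd (hP.prime.dvd_of_dvd_pow h4) with h5 | h5
    · exact hs2 h5
    · exact hs' h5
  have hiso := iso_unim (K := K) hP hv h2 (hk a b d) (hk_symm a b d) hdet
  have hF : Pool.Agent.N765.PP.IsoF h v α fun i : Fin 3 => g * θ ^ (i : ℕ) := by
    rw [isoF_iff h v α _ (hk a b d) 1 one_ne_zero fun i j => by rw [mul_one, gram h hd]]
    exact hiso
  exact iso_change h v α (li_mul (li_pow h) hgne) (li_pow h) hF

end Run7.h298.TS
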